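import Pool.Agent.Lib.MP_c4b6f2_al.Crit2

set_option autoImplicit false

namespace Pool.Agent.Lib.MP_c4b6f2_al

namespace Gam

/-! ### the case `m = 1` -/

theorem exists_om_ne (x : W) (hx : x ≠ 0) : ∃ d, om d x ≠ 0 := by
  by_contra hcon
  push Not at hcon
  have h1 : ∀ y, om1 (tW y) (tW x) = 0 := by
    intro y
    have := hcon y
    rw [om_apply] at this
    exact congrArg Prod.fst this
  have h2 : ∀ y, om1 y x = 0 := by
    intro y
    have := hcon y
    rw [om_apply] at this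
    exact congrArg Prod.snd this
  obtain ⟨h3, -⟩ := keyfact x 1 0 (by intro y; rw [h1]; ring)
  obtain ⟨-, h4⟩ := keyfact x 0 1 (by intro y; rw [h2]; ring)
  exact not_both x hx (h3.resolve_left one_ne_zero) (h4.resolve_left one_ne_zero)

theorem norm_ne_zero' (z : Z) (hz : z ≠ 0) : z.1 ^ 2 - 2 * z.2 ^ 2 ≠ 0 := by
  intro h
  have h1 : rho z * rho (z.1, -z.2) = 0 := by
    have h2 : √2 * √2 = (2 : ℝ) := Real.mul_self_sqrt (by norm_num)
    have h3 : ((z.1 : ℝ) ^ 2 - 2 * (z.2 : ℝ) ^ 2) = 0 := by exact_mod_cast h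
    simp only [rho]
    push_cast
    linear_combination h3 - (z.2 : ℝ) ^ 2 * h2
  rcases mul_eq_zero.1 h1 with h | h
  · exact hz (rho_inj _ h)
  · have h4 : ((z.1, -z.2) : Z) = 0 := rho_inj _ h
    have h5 : z.1 = 0 := by simpa using congrArg Prod.fst h4
    have h6 : z.2 = 0 := by simpa using congrArg Prod.snd h4
    exact hz (Prod.ext h5 h6)

theorem span_two (x : W) (hx : x ≠ 0) (z : Z) : ∃ d d', om d x + om d' (tW x) = z := by
  obtain ⟨d, hd⟩ := exists_om_ne x hx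
  have hN := norm_ne_zero' _ hd
  set a := (om d x).1 with ha
  set b := (om d x).2 with hb
  refine ⟨((a * z.1 - 2 * b * z.2) / (a ^ 2 - 2 * b ^ 2)) • d,
    ((a * z.2 - b * z.1) / (a ^ 2 - 2 * b ^ 2)) • tW d, ?_⟩
  rw [map_smul, map_smul, LinearMap.smul_apply, LinearMap.smul_apply, om_t, tZ_apply]
  ext
  · simp only [Prod.fst_add, Prod.smul_fst, smul_eq_mul, ← ha, ← hb]
    field_simp
    ring
  · simp only [Prod.snd_add, Prod.smul_snd, smul_eq_mul, ← ha, ← hb]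
    field_simp
    ring

theorem aZ_one (x : Z) : aZ 1 1 x = tZ x := by
  unfold aZ
  rw [mul_one, zpow_one]

theorem aW_one (x : W) : aW 1 1 x = tW x := by
  unfold aW
  rw [mul_one, zpow_one]

theorem ostar_one : OStar (Gam 1) := by
  apply ostar_of one_ne_zero
  intro g hk hw l₁ l₂ hl₁ hl₂
  have hk1 : ∀ l, (pc g l).k = 0 := fun l => by rw [pc_k, hk, mul_zero]
  set u := pc (pc g l₁) l₂ with hu
  set v := pc (pc g l₂) l₁ with hv
  have huk : u.k = 0 := by rw [hu, pc_k, hk1, mul_zero]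
  have hvk : v.k = 0 := by rw [hv, pc_k, hk1, mul_zero]
  have huw : u.w = S l₂ (S l₁ g.w) := by rw [hu, pc_w0 _ (hk1 _), pc_w0 _ hk]
  have hvw : v.w = u.w := by rw [hv, pc_w0 _ (hk1 _), pc_w0 _ hk, huw, S_comm]
  have hu0 : u.w ≠ 0 := by
    rw [huw]
    exact S_ne_zero _ hl₂ _ (S_ne_zero _ hl₁ _ hw)
  obtain ⟨d, d', hd⟩ := span_two u.w hu0 (v.z + tZ v.z - u.z - tZ u.z)
  refine ⟨v * ((⟨0, 0, 1⟩ : Gam 1) * v * (⟨0, 0, 1⟩ : Gam 1)⁻¹), ?_,
    mul_mem_NS (self_mem_NS _) (conj_mem_NS (self_mem_NS _) _)⟩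
  have h1 : v * ((⟨0, 0, 1⟩ : Gam 1) * v * (⟨0, 0, 1⟩ : Gam 1)⁻¹) =
      ((⟨0, d, 0⟩ : Gam 1) * u * (⟨0, d, 0⟩ : Gam 1)⁻¹) *
      ((⟨0, d', 1⟩ : Gam 1) * u * (⟨0, d', 1⟩ : Gam 1)⁻¹) := by
    apply Gam.ext
    · rw [mul_z, mul_z _ ((⟨0, d', 1⟩ : Gam 1) * u * (⟨0, d', 1⟩ : Gam 1)⁻¹), conj_z _ _ hvk,
        conj_z _ _ huk, conj_z _ _ huk, conj_w0 _ _ hvk, conj_w0 _ _ huk, conj_w0 _ _ huk, conj_k,
        hvk, huk, hvw]
      simp only [aZ_zero, aW_zero, map_zero, LinearMap.zero_apply, add_zero, aZ_one, aW_one]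
      have : v.z + tZ v.z = u.z + tZ u.z + (om d u.w + om d' (tW u.w)) := by
        rw [hd]
        abel
      rw [this]
      abel
    · rw [mul_w, mul_w _ ((⟨0, d', 1⟩ : Gam 1) * u * (⟨0, d', 1⟩ : Gam 1)⁻¹), conj_w0 _ _ hvk,
        conj_w0 _ _ huk, conj_w0 _ _ huk, conj_k, hvk, huk, hvw]
      simp
    · simp [huk, hvk]
  rw [h1]
  exact mul_mem_NS (conj_mem_NS (self_mem_NS _) _) (conj_mem_NS (self_mem_NS _) _)

/-! ### the case `m = 4` -/

theorem zpow_intertwine {M N : Type} [AddCommGroup M] [Module ℚ M] [AddCommGroup N] [Module ℚ N]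
    (T : M ≃ₗ[ℚ] M) (f : N ≃ₗ[ℚ] N) (p : M → N) (h : ∀ x, p (T x) = f (p x)) (k : ℤ) (x : M) :
    p ((T ^ k) x) = (f ^ k) (p x) := by
  have key : ∀ k : ℕ, ∀ x, p ((T ^ k) x) = (f ^ k) (p x) := by
    intro k
    induction k with
    | zero => intro x; simp
    | succ k ih => intro x; rw [pow_succ', pow_succ', lmul, lmul, h, ih]
  cases k with
  | ofNat k => simpa using key k x
  | negSucc k =>
    rw [zpow_negSucc, zpow_negSucc]
    have h := key (k + 1) (((T ^ (k + 1))⁻¹ : M ≃ₗ[ℚ] M) x)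
    rw [← lmul, mul_inv_cancel, lone] at h
    rw [h, ← lmul, inv_mul_cancel, lone]

theorem zpow_eig {M : Type} [AddCommGroup M] [Module ℚ M]
    (T : M ≃ₗ[ℚ] M) (f : M → ℚ) (c : ℚ) (hc : c ≠ 0) (h : ∀ x, f (T x) = c * f x) (k : ℤ) (x : M) :
    f ((T ^ k) x) = c ^ k * f x := by
  have key : ∀ k : ℕ, ∀ x, f ((T ^ k) x) = c ^ k * f x := by
    intro k
    induction k with
    | zero => intro x; simp
    | succ k ih => intro x; rw [pow_succ', pow_succ', lmul, h, ih, mul_assoc]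
  cases k with
  | ofNat k => simpa using key k x
  | negSucc k =>
    rw [zpow_negSucc, zpow_negSucc]
    have h := key (k + 1) (((T ^ (k + 1))⁻¹ : M ≃ₗ[ℚ] M) x)
    rw [← lmul, mul_inv_cancel, lone] at h
    rw [h]
    field_simp

theorem tW4 (x : W) : (tW ^ (4 : ℤ)) x = (s (s x.1), s (s x.2)) := by
  have : (tW ^ (4 : ℤ) : W ≃ₗ[ℚ] W) = tW * tW * tW * tW := by
    rw [show (4 : ℤ) = ((4 : ℕ) : ℤ) by norm_num, zpow_natCast, pow_succ, pow_succ, pow_succ,
      pow_one]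
  rw [this, lmul, lmul, lmul]
  simp only [tW_apply]

theorem tZ4 (x : Z) : (tZ ^ (4 : ℤ)) x = (4 * x.1, 4 * x.2) := by
  have : (tZ ^ (4 : ℤ) : Z ≃ₗ[ℚ] Z) = tZ * tZ * tZ * tZ := by
    rw [show (4 : ℤ) = ((4 : ℕ) : ℤ) by norm_num, zpow_natCast, pow_succ, pow_succ, pow_succ,
      pow_one]
  rw [this, lmul, lmul, lmul]
  simp only [tZ_apply]
  ext <;> simp <;> ring

theorem aZ4_fst (k : ℤ) (z : Z) : (aZ 4 k z).1 = 4 ^ k * z.1 := by
  unfold aZ
  rw [zpow_mul]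
  exact zpow_eig _ (fun z : Z => z.1) 4 (by norm_num) (fun x => by rw [tZ4]) k z

theorem aZ4_snd (k : ℤ) (z : Z) : (aZ 4 k z).2 = 4 ^ k * z.2 := by
  unfold aZ
  rw [zpow_mul]
  exact zpow_eig _ (fun z : Z => z.2) 4 (by norm_num) (fun x => by rw [tZ4]) k z

theorem aW4_fst (k : ℤ) (x : W) : (aW 4 k x).1 = ((s * s) ^ k) x.1 := by
  unfold aW
  rw [zpow_mul]
  exact zpow_intertwine _ (s * s) (fun z : W => z.1) (fun x => by rw [tW4]; rfl) k x

theorem aW4_snd (k : ℤ) (x : W) : (aW 4 k x).2 = ((s * s) ^ k) x.2 := by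
  unfold aW
  rw [zpow_mul]
  exact zpow_intertwine _ (s * s) (fun z : W => z.2) (fun x => by rw [tW4]; rfl) k x

theorem Phi_ss (k : ℤ) (v : V) : Phi (((s * s) ^ k : V ≃ₗ[ℚ] V) v) = Phi v := by
  have := zpow_eig (s * s) (fun v => Phi v) 1 one_ne_zero (fun x => by
    rw [lmul, Phi_s, Phi_s]
    ring) k v
  simpa using this

/-- the two invariant conditions -/
def K2 (x : W) : Prop := x.2 = 0 ∧ Phi x.1 = 0
def K1 (x : W) : Prop := x.1 = 0 ∧ Phi x.2 = 0

theorem K2_a (k : ℤ) (x : W) (h : K2 x) : K2 (aW 4 k x) := by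
  obtain ⟨h1, h2⟩ := h
  exact ⟨by rw [aW4_snd, h1, map_zero], by rw [aW4_fst, Phi_ss, h2]⟩

theorem K1_a (k : ℤ) (x : W) (h : K1 x) : K1 (aW 4 k x) := by
  obtain ⟨h1, h2⟩ := h
  exact ⟨by rw [aW4_fst, h1, map_zero], by rw [aW4_snd, Phi_ss, h2]⟩

theorem K2_add (x y : W) (hx : K2 x) (hy : K2 y) : K2 (x + y) := by
  obtain ⟨h1, h2⟩ := hx
  obtain ⟨h3, h4⟩ := hy
  refine ⟨?_, ?_⟩
  · rw [Prod.snd_add, h1, h3, add_zero]
  · rw [Prod.fst_add, map_add, h2, h4, add_zero]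

theorem K1_add (x y : W) (hx : K1 x) (hy : K1 y) : K1 (x + y) := by
  obtain ⟨h1, h2⟩ := hx
  obtain ⟨h3, h4⟩ := hy
  refine ⟨?_, ?_⟩
  · rw [Prod.fst_add, h1, h3, add_zero]
  · rw [Prod.snd_add, map_add, h2, h4, add_zero]

theorem K2_zero : K2 0 := ⟨rfl, by simp⟩
theorem K1_zero : K1 0 := ⟨rfl, by simp⟩

theorem S4_fst (l : List (Gam 4)) (x : W) : (S l (x.1, 0)) = ((S l x).1, 0) := by
  induction l with
  | nil => rfl
  | cons h l ih =>
    rw [S_cons, S_cons, ih]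
    ext1
    · rw [Prod.fst_add, Prod.fst_add, aW4_fst, aW4_fst]
    · rw [Prod.snd_add, aW4_snd, map_zero, add_zero]

theorem S4_snd (l : List (Gam 4)) (x : W) : (S l (0, x.2)) = (0, (S l x).2) := by
  induction l with
  | nil => rfl
  | cons h l ih =>
    rw [S_cons, S_cons, ih]
    ext1
    · rw [Prod.fst_add, aW4_fst, map_zero, add_zero]
    · rw [Prod.snd_add, Prod.snd_add, aW4_snd, aW4_snd]

theorem Phi_S4_fst (l : List (Gam 4)) (x : W) : Phi (S l x).1 = l.length * Phi x.1 := by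
  induction l with
  | nil => simp
  | cons h l ih =>
    rw [S_cons, Prod.fst_add, map_add, aW4_fst, Phi_ss, ih, List.length_cons]
    push_cast
    ring

theorem Phi_S4_snd (l : List (Gam 4)) (x : W) : Phi (S l x).2 = l.length * Phi x.2 := by
  induction l with
  | nil => simp
  | cons h l ih =>
    rw [S_cons, Prod.snd_add, map_add, aW4_snd, Phi_ss, ih, List.length_cons]
    push_cast
    ring

theorem K2_of_S (l : List (Gam 4)) (hl : l ≠ []) (x : W) (h : K2 (S l x)) : K2 x := by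
  obtain ⟨h1, h2⟩ := h
  constructor
  · by_contra h3
    have h4 : ((0, x.2) : W) ≠ 0 := fun h => h3 (congrArg Prod.snd h)
    apply S_ne_zero l hl _ h4
    rw [S4_snd, h1]
    rfl
  · rw [Phi_S4_fst] at h2
    rcases mul_eq_zero.1 h2 with h | h
    · exfalso
      apply hl
      apply List.eq_nil_of_length_eq_zero
      exact_mod_cast h
    · exact h

theorem K1_of_S (l : List (Gam 4)) (hl : l ≠ []) (x : W) (h : K1 (S l x)) : K1 x := by
  obtain ⟨h1, h2⟩ := h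
  constructor
  · by_contra h3
    have h4 : ((x.1, 0) : W) ≠ 0 := fun h => h3 (congrArg Prod.fst h)
    apply S_ne_zero l hl _ h4
    rw [S4_fst, h1]
    rfl
  · rw [Phi_S4_snd] at h2
    rcases mul_eq_zero.1 h2 with h | h
    · exfalso
      apply hl
      apply List.eq_nil_of_length_eq_zero
      exact_mod_cast h
    · exact h

/-- the projection of the central part is multiplicative on elements whose `w`-part is in the
radical -/
theorem hom4 (π : Z →ₗ[ℚ] ℚ) (hπ : ∀ k z, π (aZ 4 k z) = 4 ^ k * π z) (K : W → Prop)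
    (hK : ∀ x, K x → ∀ y, π (om y x) = 0) (hKa : ∀ k x, K x → K (aW 4 k x))
    (hKadd : ∀ x y, K x → K y → K (x + y)) (hK0 : K 0) (x : Gam 4) (hk : x.k = 0)
    (hw : K x.w) (l : List (Gam 4)) :
    K (pc x l).w ∧ π (pc x l).z = (l.map fun h => (4 : ℚ) ^ h.k).sum * π x.z := by
  induction l with
  | nil => exact ⟨hK0, by simp⟩
  | cons h l ih =>
    obtain ⟨ih1, ih2⟩ := ih
    rw [pc_cons, mul_w, mul_z, conj_w0 _ _ hk, conj_k, hk, aW_zero, aZ_zero, conj_z _ _ hk]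
    refine ⟨hKadd _ _ (hKa _ _ hw) ih1, ?_⟩
    rw [map_add, map_add, map_add, map_smul, hK _ ih1, hK _ (hKa _ _ hw), hπ, ih2, List.map_cons,
      List.sum_cons]
    simp
    ring

theorem ostar_four : OStar (Gam 4) := by
  apply ostar_of (by norm_num)
  intro g hk hw l₁ l₂ hl₁ hl₂
  have hk1 : ∀ l, (pc g l).k = 0 := fun l => by rw [pc_k, hk, mul_zero]
  set u := pc (pc g l₁) l₂ with hu
  set v := pc (pc g l₂) l₁ with hv
  have huk : u.k = 0 := by rw [hu, pc_k, hk1, mul_zero]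
  have hvk : v.k = 0 := by rw [hv, pc_k, hk1, mul_zero]
  have huw : u.w = S l₂ (S l₁ g.w) := by rw [hu, pc_w0 _ (hk1 _), pc_w0 _ hk]
  have hvw : v.w = u.w := by rw [hv, pc_w0 _ (hk1 _), pc_w0 _ hk, huw, S_comm]
  have hu0 : u.w ≠ 0 := by
    rw [huw]
    exact S_ne_zero _ hl₂ _ (S_ne_zero _ hl₁ _ hw)
  have hex : ∃ d, om d u.w = v.z - u.z := by
    by_cases h1 : u.w.1 = 0 ∧ Phi u.w.2 = 0
    · have h2 : K1 g.w := by
        apply K1_of_S l₁ hl₁
        apply K1_of_S l₂ hl₂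
        rw [← huw]
        exact h1
      have h3 := hom4 (LinearMap.fst ℚ ℚ ℚ) aZ4_fst K1 (fun x hx y => om1_rad' x y hx) K1_a K1_add
        K1_zero g hk h2
      have h4 := hom4 (LinearMap.fst ℚ ℚ ℚ) aZ4_fst K1 (fun x hx y => om1_rad' x y hx) K1_a K1_add
        K1_zero (pc g l₁) (hk1 _) (h3 l₁).1 l₂
      have h5 := hom4 (LinearMap.fst ℚ ℚ ℚ) aZ4_fst K1 (fun x hx y => om1_rad' x y hx) K1_a K1_add
        K1_zero (pc g l₂) (hk1 _) (h3 l₂).1 l₁
      apply surj_rad' _ hu0 h1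
      have h6 := h4.2
      have h7 := h5.2
      rw [(h3 l₁).2] at h6
      rw [(h3 l₂).2] at h7
      rw [← hu] at h6
      rw [← hv] at h7
      simp only [LinearMap.fst_apply] at h6 h7
      rw [Prod.fst_sub, h6, h7]
      ring
    · by_cases h1' : u.w.2 = 0 ∧ Phi u.w.1 = 0
      · have h2 : K2 g.w := by
          apply K2_of_S l₁ hl₁
          apply K2_of_S l₂ hl₂
          rw [← huw]
          exact h1'
        have h3 := hom4 (LinearMap.snd ℚ ℚ ℚ) aZ4_snd K2 (fun x hx y => om1_rad x y hx) K2_a K2_add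
          K2_zero g hk h2
        have h4 := hom4 (LinearMap.snd ℚ ℚ ℚ) aZ4_snd K2 (fun x hx y => om1_rad x y hx) K2_a K2_add
          K2_zero (pc g l₁) (hk1 _) (h3 l₁).1 l₂
        have h5 := hom4 (LinearMap.snd ℚ ℚ ℚ) aZ4_snd K2 (fun x hx y => om1_rad x y hx) K2_a K2_add
          K2_zero (pc g l₂) (hk1 _) (h3 l₂).1 l₁
        apply surj_rad _ hu0 h1'
        have h6 := h4.2
        have h7 := h5.2
        rw [(h3 l₁).2] at h6
        rw [(h3 l₂).2] at h7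
        rw [← hu] at h6
        rw [← hv] at h7
        simp only [LinearMap.snd_apply] at h6 h7
        rw [Prod.snd_sub, h6, h7]
        ring
      · exact surj_of_not _ h1 h1' _
  obtain ⟨d, hd⟩ := hex
  refine ⟨v, ?_, self_mem_NS _⟩
  have h1 : v = (⟨0, d, 0⟩ : Gam 4) * u * (⟨0, d, 0⟩ : Gam 4)⁻¹ := by
    apply Gam.ext
    · rw [conj_z _ _ huk]
      simp only [aZ_zero, aW_zero, hd]
      abel
    · rw [conj_w0 _ _ huk, hvw]
      simp
    · rw [conj_k, huk, hvk]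
  rw [h1]
  exact conj_mem_NS (self_mem_NS _) _

end Gam

end Pool.Agent.Lib.MP_c4b6f2_al
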