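import Pool.Agent.Lib.MP_c4b6f2_al.Defs

set_option autoImplicit false

namespace Pool.Agent.Lib.MP_c4b6f2_al

/-- product of conjugates -/
def pc {G : Type} [Group G] (g : G) (l : List G) : G := (l.map fun h => h * g * h⁻¹).prod

@[simp] theorem pc_nil {G : Type} [Group G] (g : G) : pc g [] = 1 := rfl

@[simp] theorem pc_cons {G : Type} [Group G] (g h : G) (l : List G) :
    pc g (h :: l) = h * g * h⁻¹ * pc g l := by
  simp [pc]

theorem pc_append {G : Type} [Group G] (g : G) (l l' : List G) :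
    pc g (l ++ l') = pc g l * pc g l' := by
  simp [pc]

theorem conj_pc {G : Type} [Group G] (g t : G) (l : List G) :
    t * pc g l * t⁻¹ = pc g (l.map (t * ·)) := by
  induction l with
  | nil => simp
  | cons h l ih =>
    rw [pc_cons, List.map_cons, pc_cons, ← ih]
    group

/-- The normal subsemigroup generated by an element. -/
def NS {G : Type} [Group G] (g : G) : Set G := {x | ∃ l : List G, l ≠ [] ∧ x = pc g l}

theorem self_mem_NS {G : Type} [Group G] (g : G) : g ∈ NS g := ⟨[1], by simp, by simp⟩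

theorem conj_mem_NS {G : Type} [Group G] {g x : G} (hx : x ∈ NS g) (t : G) :
    t * x * t⁻¹ ∈ NS g := by
  obtain ⟨l, hl, rfl⟩ := hx
  exact ⟨l.map (t * ·), by simpa using hl, conj_pc g t l⟩

theorem mul_mem_NS {G : Type} [Group G] {g x y : G} (hx : x ∈ NS g) (hy : y ∈ NS g) :
    x * y ∈ NS g := by
  obtain ⟨l, hl, rfl⟩ := hx
  obtain ⟨l', hl', rfl⟩ := hy
  exact ⟨l ++ l', by simp [hl], (pc_append g l l').symm⟩

theorem NS_subset {G : Type} [Group G] {g a : G} (ha : a ∈ NS g) : NS a ⊆ NS g := by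
  rintro x ⟨l, hl, rfl⟩
  induction l with
  | nil => exact absurd rfl hl
  | cons h l ih =>
    rw [pc_cons]
    rcases List.eq_nil_or_concat l with rfl | h'
    · simpa using conj_mem_NS ha h
    · apply mul_mem_NS (conj_mem_NS ha h)
      apply ih
      rintro rfl
      simp at h'

theorem inv_mem_NS {G : Type} [Group G] {g x : G} (hx : x ∈ NS g⁻¹) : x⁻¹ ∈ NS g := by
  obtain ⟨l, hl, rfl⟩ := hx
  induction l with
  | nil => exact absurd rfl hl
  | cons h l ih =>
    rw [pc_cons, mul_inv_rev]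
    have h1 : (h * g⁻¹ * h⁻¹)⁻¹ = h * g * h⁻¹ := by group
    rw [h1]
    rcases l with _ | ⟨h', l⟩
    · simpa using conj_mem_NS (self_mem_NS g) h
    · exact mul_mem_NS (ih (by simp)) (conj_mem_NS (self_mem_NS g) h)

/-- positive cones -/
structure IsCone {G : Type} [Group G] (P : Set G) : Prop where
  one : (1 : G) ∈ P
  mul : ∀ x ∈ P, ∀ y ∈ P, x * y ∈ P
  conj : ∀ x ∈ P, ∀ t : G, t * x * t⁻¹ ∈ P
  anti : ∀ x, x ∈ P → x⁻¹ ∈ P → x = 1

theorem IsPO.cone {G : Type} [Group G] {le : G → G → Prop} (h : IsPO G le) :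
    IsCone {x | le 1 x} := by
  obtain ⟨h1, h2, h3, h4⟩ := h
  refine ⟨h1 1, ?_, ?_, ?_⟩
  · intro x hx y hy
    have := h4 1 y x 1 hy
    simp only [mul_one] at this
    exact h2 _ _ _ hx this
  · intro x hx t
    have := h4 1 x t t⁻¹ hx
    simpa using this
  · intro x hx hx'
    have := h4 1 x⁻¹ x 1 hx'
    simp only [mul_one, mul_inv_cancel] at this
    exact (h3 _ _ hx this).symm

theorem IsPO.le_iff {G : Type} [Group G] {le : G → G → Prop} (h : IsPO G le) (x y : G) :
    le x y ↔ le 1 (x⁻¹ * y) := by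
  obtain ⟨h1, h2, h3, h4⟩ := h
  constructor
  · intro hxy
    have := h4 x y x⁻¹ 1 hxy
    simpa using this
  · intro hxy
    have := h4 1 (x⁻¹ * y) x 1 hxy
    simpa using this

theorem IsCone.isPO {G : Type} [Group G] {P : Set G} (h : IsCone P) :
    IsPO G (fun x y => x⁻¹ * y ∈ P) := by
  refine ⟨?_, ?_, ?_, ?_⟩
  · intro x
    simpa using h.one
  · intro x y z hxy hyz
    have := h.mul _ hxy _ hyz
    simpa [mul_assoc] using this
  · intro x y hxy hyx
    have := h.anti _ hxy (by simpa using hyx)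
    rw [inv_mul_eq_one] at this
    exact this
  · intro x y g t hxy
    have := h.conj _ hxy t⁻¹
    simpa [mul_assoc] using this

/-- The O*-criterion. -/
theorem OStar.of_crit {G : Type} [Group G] (h1 : ∀ g : G, g ≠ 1 → (1 : G) ∉ NS g)
    (h2 : ∀ g : G, ∀ a ∈ NS g, ∀ b ∈ NS g, ∃ c, c ∈ NS a ∧ c ∈ NS b) : OStar G := by
  intro le hle
  obtain ⟨P, hPle, hP⟩ := zorn_subset_nonempty {P : Set G | IsCone P} (by
    intro c hc hchain hne
    refine ⟨⋃₀ c, ?_, fun s hs => Set.subset_sUnion_of_mem hs⟩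
    obtain ⟨P₀, hP₀⟩ := hne
    refine ⟨⟨P₀, hP₀, (hc hP₀).one⟩, ?_, ?_, ?_⟩
    · rintro x ⟨P, hP, hx⟩ y ⟨Q, hQ, hy⟩
      rcases hchain.total hP hQ with h | h
      · exact ⟨Q, hQ, (hc hQ).mul x (h hx) y hy⟩
      · exact ⟨P, hP, (hc hP).mul x hx y (h hy)⟩
    · rintro x ⟨P, hP, hx⟩ t
      exact ⟨P, hP, (hc hP).conj x hx t⟩
    · rintro x ⟨P, hP, hx⟩ ⟨Q, hQ, hy⟩
      rcases hchain.total hP hQ with h | h
      · exact (hc hQ).anti x (h hx) hy
      · exact (hc hP).anti x hx (h hy)) {x | le 1 x} hle.cone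
  have hcone : IsCone P := hP.prop
  have hmax : ∀ Q : Set G, IsCone Q → P ⊆ Q → Q ⊆ P := fun Q hQ hPQ => hP.le_of_ge hQ hPQ
  have key : ∀ g, g ∉ P → ∃ s ∈ NS g, s⁻¹ ∈ P := by
    intro g hg
    by_contra hcon
    push Not at hcon
    apply hg
    have hQ : IsCone {x | x ∈ P ∨ ∃ p ∈ P, ∃ s ∈ NS g, x = p * s} := by
      refine ⟨Or.inl hcone.one, ?_, ?_, ?_⟩
      · rintro x (hx | ⟨p, hp, s, hs, rfl⟩) y (hy | ⟨p', hp', s', hs', rfl⟩)
        · exact Or.inl (hcone.mul x hx y hy)
        · exact Or.inr ⟨x * p', hcone.mul x hx p' hp', s', hs', by rw [mul_assoc]⟩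
        · refine Or.inr ⟨p * (s * y * s⁻¹), hcone.mul p hp _ (hcone.conj y hy s), s, hs, ?_⟩
          group
        · refine Or.inr ⟨p * (s * p' * s⁻¹), hcone.mul p hp _ (hcone.conj p' hp' s), s * s',
            mul_mem_NS hs hs', ?_⟩
          group
      · rintro x (hx | ⟨p, hp, s, hs, rfl⟩) t
        · exact Or.inl (hcone.conj x hx t)
        · refine Or.inr ⟨t * p * t⁻¹, hcone.conj p hp t, t * s * t⁻¹, conj_mem_NS hs t, ?_⟩
          group
      · rintro x hx hx'
        rcases hx with hx | ⟨p, hp, s, hs, hps⟩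
        · rcases hx' with hx' | ⟨p', hp', s', hs', hps'⟩
          · exact hcone.anti x hx hx'
          · exfalso
            apply hcon s' hs'
            have h3 : s'⁻¹ = x * p' := by
              rw [eq_comm, ← eq_inv_mul_iff_mul_eq, hps']
              group
            rw [h3]
            exact hcone.mul x hx p' hp'
        · exfalso
          rcases hx' with hx' | ⟨p', hp', s', hs', hps'⟩
          · apply hcon s hs
            have h3 : s⁻¹ = x⁻¹ * p := by
              rw [hps]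
              group
            rw [h3]
            exact hcone.mul _ hx' p hp
          · apply hcon (s * s') (mul_mem_NS hs hs')
            have h3 : (s * s')⁻¹ = p * (s * p' * s⁻¹) := by
              rw [inv_eq_iff_mul_eq_one]
              have h4 : x * x⁻¹ = 1 := mul_inv_cancel x
              rw [hps'] at h4
              rw [hps] at h4
              rw [← mul_eq_one_comm]
              calc p * (s * p' * s⁻¹) * (s * s') = p * s * (p' * s') := by group
                _ = 1 := h4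
            rw [h3]
            exact hcone.mul p hp _ (hcone.conj p' hp' s)
    exact hmax _ hQ (fun x hx => Or.inl hx)
      (Or.inr ⟨1, hcone.one, g, self_mem_NS g, by simp⟩)
  have hNSP : ∀ a ∈ P, NS a ⊆ P := by
    rintro a ha x ⟨l, -, rfl⟩
    induction l with
    | nil => exact hcone.one
    | cons h l ih =>
      rw [pc_cons]
      exact hcone.mul _ (hcone.conj a ha h) _ ih
  have htot : ∀ g, g ∈ P ∨ g⁻¹ ∈ P := by
    intro g
    by_contra hcon
    push Not at hcon
    obtain ⟨hg1, hg2⟩ := hcon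
    obtain ⟨b, hb, hbP⟩ := key g hg1
    obtain ⟨s, hs, hsP⟩ := key g⁻¹ hg2
    have ha : s⁻¹ ∈ NS g := inv_mem_NS hs
    obtain ⟨c, hc1, hc2⟩ := h2 g s⁻¹ ha b hb
    have hc3 : c ∈ P := hNSP _ hsP hc1
    have hc4 : c⁻¹ ∈ P := by
      apply hNSP _ hbP
      apply inv_mem_NS
      rwa [inv_inv]
    have hc5 := hcone.anti c hc3 hc4
    have hg : g ≠ 1 := by
      rintro rfl
      exact hg1 hcone.one
    apply h1 g hg
    rw [← hc5]
    exact NS_subset ha hc1
  refine ⟨fun x y => x⁻¹ * y ∈ P, ⟨hcone.isPO, ?_⟩, ?_⟩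
  · intro x y
    rcases htot (x⁻¹ * y) with h | h
    · exact Or.inl h
    · right
      simpa using h
  · intro x y hxy
    exact hPle ((hle.le_iff x y).1 hxy)

theorem OStar.of_equiv {G G' : Type} [Group G] [Group G'] (e : G ≃* G') (h : OStar G) :
    OStar G' := by
  intro le hle
  obtain ⟨h1, h2, h3, h4⟩ := hle
  obtain ⟨le', ⟨⟨k1, k2, k3, k4⟩, k5⟩, k6⟩ := h (fun x y => le (e x) (e y)) (by
    refine ⟨fun x => h1 _, fun x y z => h2 _ _ _, fun x y hxy hyx => e.injective (h3 _ _ hxy hyx),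
      ?_⟩
    intro x y g t hxy
    rw [map_mul, map_mul, map_mul, map_mul]
    exact h4 _ _ _ _ hxy)
  refine ⟨fun x y => le' (e.symm x) (e.symm y), ⟨⟨fun x => k1 _, fun x y z => k2 _ _ _,
    fun x y hxy hyx => e.symm.injective (k3 _ _ hxy hyx), ?_⟩, fun x y => k5 _ _⟩, ?_⟩
  · intro x y g t hxy
    rw [map_mul, map_mul, map_mul, map_mul]
    exact k4 _ _ _ _ hxy
  · intro x y hxy
    apply k6
    simpa using hxy

/-- total orders are strongly isolated -/
theorem IsTO.stronglyIsolated {G : Type} [Group G] {le : G → G → Prop} (h : IsTO G le) :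
    StronglyIsolated G le := by
  obtain ⟨hPO, htot⟩ := h
  have hcone := hPO.cone
  intro a l hl hprod
  rcases htot 1 a with h1 | h1
  · exact h1
  · -- `a ≤ 1`
    have h2 : le 1 a⁻¹ := by
      rw [hPO.le_iff] at h1
      simpa using h1
    have h3 : ∀ l : List G, le 1 ((l.map fun g => g⁻¹ * a * g).prod)⁻¹ := by
      intro l
      induction l with
      | nil => simpa using hcone.one
      | cons g l ih =>
        rw [List.map_cons, List.prod_cons, mul_inv_rev]
        have h4 : (g⁻¹ * a * g)⁻¹ = g⁻¹ * a⁻¹ * (g⁻¹)⁻¹ := by group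
        rw [h4]
        exact hcone.mul _ ih _ (hcone.conj _ h2 _)
    have h5 := hcone.anti _ hprod (h3 l)
    obtain ⟨g, l, rfl⟩ : ∃ g l', l = g :: l' := by
      cases l with
      | nil => exact absurd rfl hl
      | cons g l => exact ⟨g, l, rfl⟩
    -- the inverse of the tail product is `≥ 1`
    rw [List.map_cons, List.prod_cons] at h5
    have h6 : g⁻¹ * a * g = ((l.map fun g => g⁻¹ * a * g).prod)⁻¹ :=
      eq_inv_of_mul_eq_one_left h5
    have h7 : le 1 (g⁻¹ * a * g) := by
      rw [h6]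
      exact h3 l
    have h8 := hcone.conj _ h7 g
    have h9 : g * (g⁻¹ * a * g) * g⁻¹ = a := by group
    rw [h9] at h8
    exact h8

theorem OStar.iStarStar {G : Type} [Group G] (h : OStar G) : IStarStar G := by
  intro le hle
  obtain ⟨le', h1, h2⟩ := h le hle
  exact ⟨le', h1.1, h1.stronglyIsolated, h2⟩

end Pool.Agent.Lib.MP_c4b6f2_al
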