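import Pool.Agent.Lib.MP_c4b6f2_al.Gam
import Pool.Agent.Lib.MP_c4b6f2_al.Crit

set_option autoImplicit false

namespace Pool.Agent.Lib.MP_c4b6f2_al

namespace Gam

variable {m : ℤ}

/-- sum over a list of group elements of the action on `W` -/
noncomputable def S (l : List (Gam m)) (x : W) : W := (l.map fun h => aW m h.k x).sum

/-- sum over a list of group elements of the action on `Z` -/
noncomputable def SZ (l : List (Gam m)) (x : Z) : Z := (l.map fun h => aZ m h.k x).sum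

@[simp] theorem S_nil (x : W) : S ([] : List (Gam m)) x = 0 := rfl
theorem S_cons (h : Gam m) (l : List (Gam m)) (x : W) : S (h :: l) x = aW m h.k x + S l x := by
  simp [S]
@[simp] theorem SZ_nil (x : Z) : SZ ([] : List (Gam m)) x = 0 := rfl
theorem SZ_cons (h : Gam m) (l : List (Gam m)) (x : Z) : SZ (h :: l) x = aZ m h.k x + SZ l x := by
  simp [SZ]

theorem aW_comm (j k : ℤ) (x : W) : aW m j (aW m k x) = aW m k (aW m j x) := by
  rw [← aW_add, ← aW_add, add_comm]

theorem aZ_comm (j k : ℤ) (x : Z) : aZ m j (aZ m k x) = aZ m k (aZ m j x) := by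
  rw [← aZ_add, ← aZ_add, add_comm]

theorem S_a (l : List (Gam m)) (j : ℤ) (x : W) : S l (aW m j x) = aW m j (S l x) := by
  induction l with
  | nil => simp
  | cons h l ih => rw [S_cons, S_cons, ih, map_add, aW_comm]

theorem SZ_a (l : List (Gam m)) (j : ℤ) (x : Z) : SZ l (aZ m j x) = aZ m j (SZ l x) := by
  induction l with
  | nil => simp
  | cons h l ih => rw [SZ_cons, SZ_cons, ih, map_add, aZ_comm]

theorem S_add (l : List (Gam m)) (x y : W) : S l (x + y) = S l x + S l y := by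
  induction l with
  | nil => simp
  | cons h l ih =>
    rw [S_cons, S_cons, S_cons, ih, map_add]
    abel

theorem SZ_add (l : List (Gam m)) (x y : Z) : SZ l (x + y) = SZ l x + SZ l y := by
  induction l with
  | nil => simp
  | cons h l ih =>
    rw [SZ_cons, SZ_cons, SZ_cons, ih, map_add]
    abel

theorem S_zero (l : List (Gam m)) : S l 0 = 0 := by
  induction l with
  | nil => simp
  | cons h l ih => rw [S_cons, ih]; simp

theorem SZ_zero (l : List (Gam m)) : SZ l 0 = 0 := by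
  induction l with
  | nil => simp
  | cons h l ih => rw [SZ_cons, ih]; simp

theorem S_comm (l l' : List (Gam m)) (x : W) : S l (S l' x) = S l' (S l x) := by
  induction l with
  | nil => simp [S_zero]
  | cons h l ih => rw [S_cons, S_cons, S_add, ih, S_a]

theorem SZ_comm (l l' : List (Gam m)) (x : Z) : SZ l (SZ l' x) = SZ l' (SZ l x) := by
  induction l with
  | nil => simp [SZ_zero]
  | cons h l ih => rw [SZ_cons, SZ_cons, SZ_add, ih, SZ_a]

theorem S_ne_zero (l : List (Gam m)) (hl : l ≠ []) (x : W) (hx : x ≠ 0) : S l x ≠ 0 := by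
  have := h1W x hx (l.map fun h => m * h.k) (by simpa using hl)
  rw [List.map_map] at this
  exact this

theorem SZ_ne_zero (l : List (Gam m)) (hl : l ≠ []) (x : Z) (hx : x ≠ 0) : SZ l x ≠ 0 := by
  have := h2Z x hx (l.map fun h => m * h.k) (by simpa using hl)
  rw [List.map_map] at this
  exact this

theorem pc_k (x : Gam m) (l : List (Gam m)) : (pc x l).k = l.length * x.k := by
  induction l with
  | nil => simp
  | cons h l ih =>
    rw [pc_cons, mul_k, conj_k, ih, List.length_cons]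
    push_cast
    ring

theorem pc_w0 (x : Gam m) (hx : x.k = 0) (l : List (Gam m)) : (pc x l).w = S l x.w := by
  induction l with
  | nil => simp
  | cons h l ih =>
    rw [pc_cons, mul_w, conj_w0 _ _ hx, conj_k, hx, aW_zero, ih, S_cons]

theorem pc_z0 (x : Gam m) (hx : x.k = 0) (hx' : x.w = 0) (l : List (Gam m)) :
    (pc x l).z = SZ l x.z := by
  induction l with
  | nil => simp
  | cons h l ih =>
    rw [pc_cons, mul_z, conj_z _ _ hx, conj_w0 _ _ hx, conj_k, hx, hx', aZ_zero, ih, SZ_cons]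
    simp

theorem crit1 (g : Gam m) (hg : g ≠ 1) : (1 : Gam m) ∉ NS g := by
  rintro ⟨l, hl, h⟩
  have hk : g.k = 0 := by
    have := pc_k g l
    rw [← h, one_k] at this
    rcases mul_eq_zero.1 this.symm with h | h
    · exfalso
      apply hl
      apply List.eq_nil_of_length_eq_zero
      exact_mod_cast h
    · exact h
  have hw : g.w = 0 := by
    have := pc_w0 g hk l
    rw [← h, one_w] at this
    by_contra h1
    exact S_ne_zero l hl _ h1 this.symm
  have hz : g.z = 0 := by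
    have := pc_z0 g hk hw l
    rw [← h, one_z] at this
    by_contra h1
    exact SZ_ne_zero l hl _ h1 this.symm
  exact hg (Gam.ext hz hw hk)

/-- the range of `1 - σ^k` on `W` -/
noncomputable def I (m k : ℤ) : Submodule ℚ W :=
  LinearMap.range (LinearMap.id - ((aW m k : W ≃ₗ[ℚ] W) : W →ₗ[ℚ] W))

theorem mem_I (k : ℤ) (x : W) : x ∈ I m k ↔ ∃ d, d - aW m k d = x := Iff.rfl

theorem I_a (k j : ℤ) (x : W) (hx : x ∈ I m k) : aW m j x ∈ I m k := by
  rw [mem_I] at *
  obtain ⟨d, rfl⟩ := hx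
  exact ⟨aW m j d, by rw [map_sub, aW_comm]⟩

theorem sub_a_mem (k j : ℤ) (x : W) (h : k ∣ j) : x - aW m j x ∈ I m k := by
  obtain ⟨n, rfl⟩ := h
  have key : ∀ n : ℕ, ∀ x : W, x - aW m (k * n) x ∈ I m k := by
    intro n
    induction n with
    | zero => intro x; simp
    | succ n ih =>
      intro x
      have h1 : x - aW m (k * ((n + 1 : ℕ) : ℤ)) x = (x - aW m (k * n) x) +
          aW m (k * n) (x - aW m k x) := by
        rw [map_sub, ← aW_add]
        rw [show k * ((n + 1 : ℕ) : ℤ) = k * n + k by push_cast; ring]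
        abel
      rw [h1]
      exact add_mem (ih x) (I_a _ _ _ ⟨x, rfl⟩)
  rcases Int.eq_nat_or_neg n with ⟨n, rfl | rfl⟩
  · exact key n x
  · have h1 := key n (aW m (k * -n) x)
    rw [← aW_add, show k * (n : ℤ) + k * -n = 0 by ring, aW_zero] at h1
    rw [← neg_sub]
    exact neg_mem h1

/-- congruence of the `w`-parts -/
theorem pc_w_congr (k : ℤ) (x : Gam m) (hx : k ∣ x.k) (l : List (Gam m)) :
    (pc x l).w - S l x.w ∈ I m k := by
  induction l with
  | nil => simp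
  | cons h l ih =>
    rw [pc_cons, mul_w, S_cons, conj_w, conj_k]
    have h1 : h.w + aW m h.k x.w - aW m x.k h.w + aW m x.k (pc x l).w - (aW m h.k x.w + S l x.w) =
        (h.w - aW m x.k h.w) - ((pc x l).w - aW m x.k (pc x l).w) + ((pc x l).w - S l x.w) := by
      abel
    rw [h1]
    exact add_mem (sub_mem (sub_a_mem _ _ _ hx) (sub_a_mem _ _ _ hx)) ih

theorem S_mem (k : ℤ) (x : W) (hx : x ∈ I m k) (l : List (Gam m)) : S l x ∈ I m k := by
  induction l with
  | nil => simp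
  | cons h l ih => rw [S_cons]; exact add_mem (I_a _ _ _ hx) ih

theorem S_sub (l : List (Gam m)) (x y : W) : S l (x - y) = S l x - S l y := by
  rw [eq_sub_iff_add_eq, ← S_add, sub_add_cancel]

theorem pc_pc_congr (k : ℤ) (x : Gam m) (hx : k ∣ x.k) (l l' : List (Gam m)) :
    (pc (pc x l) l').w - S l' (S l x.w) ∈ I m k := by
  have h1 := pc_w_congr k (pc x l) (by rw [pc_k]; exact hx.mul_left _) l'
  have h2 := S_mem k _ (pc_w_congr k x hx l) l'
  rw [S_sub] at h2
  have := add_mem h1 h2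
  rwa [sub_add_sub_cancel] at this

theorem conjz (z' : Z) (x : Gam m) :
    ((⟨z', 0, 0⟩ : Gam m) * x * (⟨z', 0, 0⟩ : Gam m)⁻¹).z = z' + x.z - aZ m x.k z' := by
  rw [mul_z, mul_z, mul_w, inv_z, inv_w, mul_k]
  simp only [neg_zero, aZ_zero, aW_zero, map_zero, LinearMap.zero_apply, smul_zero, add_zero,
    zero_add, map_neg]
  abel

/-- adjusting by conjugation -/
theorem adjust (hm : m ≠ 0) (x y : Gam m) (hx : x.k ≠ 0) (hxy : y.k = x.k)
    (h : y.w - x.w ∈ I m x.k) : ∃ h : Gam m, h * x * h⁻¹ = y := by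
  obtain ⟨d, hd⟩ := h
  have hd' : d - aW m x.k d = y.w - x.w := hd
  set x' : Gam m := (⟨0, d, 0⟩ : Gam m) * x * (⟨0, d, 0⟩ : Gam m)⁻¹ with hx'
  have h1 : x'.w = y.w := by
    rw [hx', conj_w]
    simp only [aW_zero]
    have : d + x.w - aW m x.k d = (d - aW m x.k d) + x.w := by abel
    rw [this, hd']
    abel
  have h2 : x'.k = x.k := by rw [hx', conj_k]
  obtain ⟨z', hz'⟩ := h3Z (m * x.k) (mul_ne_zero hm hx) (y.z - x'.z)
  refine ⟨(⟨z', 0, 0⟩ : Gam m) * (⟨0, d, 0⟩ : Gam m), ?_⟩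
  have h3 : (⟨z', 0, 0⟩ : Gam m) * (⟨0, d, 0⟩ : Gam m) * x *
      ((⟨z', 0, 0⟩ : Gam m) * (⟨0, d, 0⟩ : Gam m))⁻¹ =
      (⟨z', 0, 0⟩ : Gam m) * x' * (⟨z', 0, 0⟩ : Gam m)⁻¹ := by
    rw [hx']
    group
  rw [h3]
  apply Gam.ext
  · rw [conjz, h2]
    have h4 : z' - aZ m x.k z' = y.z - x'.z := hz'
    have h5 : z' + x'.z - aZ m x.k z' = (z' - aZ m x.k z') + x'.z := by abel
    rw [h5, h4]
    abel
  · rw [conj_w]
    simp [h1]
  · rw [conj_k, h2, hxy]

theorem e_pow_list (k : ℤ) (n : ℕ) (x : W) :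
    x - aW m (n * k) x =
      S ((List.range n).map fun i : ℕ => (⟨0, 0, (i : ℤ) * k⟩ : Gam m)) (x - aW m k x) := by
  induction n with
  | zero => simp
  | succ n ih =>
    rw [List.range_succ, List.map_append]
    have h1 : ∀ (l l' : List (Gam m)) (y : W), S (l ++ l') y = S l y + S l' y := by
      intro l l' y
      simp [S]
    rw [h1, ← ih]
    simp only [List.map_cons, List.map_nil, S_cons, S_nil, add_zero, map_sub]
    rw [← aW_add, show ((n + 1 : ℕ) : ℤ) * k = (n : ℤ) * k + k by push_cast; ring]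
    abel

theorem crit2_k (hm : m ≠ 0) (g : Gam m) (hg : g.k ≠ 0) (l₁ l₂ : List (Gam m)) (hl₁ : l₁ ≠ [])
    (hl₂ : l₂ ≠ []) : ∃ c, c ∈ NS (pc (pc g l₁) l₂) ∧ c ∈ NS (pc (pc g l₂) l₁) := by
  set u := pc (pc g l₁) l₂ with hu
  set v := pc (pc g l₂) l₁ with hv
  have hn₁ : 0 < l₁.length := List.length_pos_iff.2 hl₁
  have hn₂ : 0 < l₂.length := List.length_pos_iff.2 hl₂
  obtain ⟨n, hn⟩ : ∃ n, l₁.length * l₂.length = n + 1 :=
    ⟨l₁.length * l₂.length - 1, by have := Nat.mul_pos hn₁ hn₂; omega⟩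
  have huk : u.k = ((n + 1 : ℕ) : ℤ) * g.k := by
    rw [hu, pc_k, pc_k, ← hn]
    push_cast
    ring
  have hvk : v.k = ((n + 1 : ℕ) : ℤ) * g.k := by
    rw [hv, pc_k, pc_k, ← hn]
    push_cast
    ring
  have hvk0 : u.k ≠ 0 := by
    rw [huk]
    apply mul_ne_zero _ hg
    exact_mod_cast Nat.succ_ne_zero n
  -- the `w`-parts agree modulo `I k`
  have huv : v.w - u.w ∈ I m g.k := by
    have h1 := pc_pc_congr g.k g (dvd_refl _) l₁ l₂
    have h2 := pc_pc_congr g.k g (dvd_refl _) l₂ l₁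
    rw [S_comm] at h2
    have := sub_mem h2 h1
    rwa [sub_sub_sub_cancel_right] at this
  obtain ⟨w₁, hw₁⟩ := huv
  have hw₁' : w₁ - aW m g.k w₁ = v.w - u.w := hw₁
  -- the list of shifts
  set L : List (Gam m) := (List.range (n + 1)).map fun i : ℕ => (⟨0, 0, (i : ℤ) * g.k⟩ : Gam m)
    with hL
  obtain ⟨L', hL'⟩ : ∃ L', L = 1 :: L' := by
    rw [hL, List.range_succ_eq_map, List.map_cons]
    have h1 : (⟨0, 0, ((0 : ℕ) : ℤ) * g.k⟩ : Gam m) = 1 := by
      apply Gam.ext <;> simp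
    rw [h1]
    exact ⟨_, rfl⟩
  have hcw : (pc v L).w - (pc u L).w ∈ I m u.k := by
    have h1 := pc_w_congr u.k v (by rw [huk, hvk]) L
    have h2 := pc_w_congr u.k u (dvd_refl _) L
    have h3 := sub_mem h1 h2
    have h4 : S L (v.w - u.w) ∈ I m u.k := by
      rw [← hw₁', hL, ← e_pow_list, huk]
      exact ⟨w₁, rfl⟩
    rw [S_sub] at h4
    have h5 := add_mem h3 h4
    have h6 : (pc v L).w - S L v.w - ((pc u L).w - S L u.w) + (S L v.w - S L u.w) =
        (pc v L).w - (pc u L).w := by abel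
    rwa [h6] at h5
  have hck : (pc v L).k = (pc u L).k := by rw [pc_k v, pc_k u, huk, hvk]
  -- the quotient
  set y : Gam m := pc v L * (pc u L)⁻¹ with hy
  have hyk : y.k = 0 := by
    rw [hy, mul_k, inv_k, hck]
    ring
  have hyc : y * pc u L = pc v L := by rw [hy]; group
  have hyw : y.w ∈ I m u.k := by
    have h1 : (y * pc u L).w = (pc v L).w := by rw [hyc]
    rw [mul_w, hyk, aW_zero] at h1
    rw [← h1, add_sub_cancel_right] at hcw
    exact hcw
  obtain ⟨h, hh⟩ := adjust hm u (y * u) hvk0 (by simp [hyk]) (by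
    rw [mul_w, hyk, aW_zero, add_sub_cancel_right]
    exact hyw)
  refine ⟨pc v L, ⟨h :: L', by simp, ?_⟩, ⟨L, by rw [hL']; simp, rfl⟩⟩
  rw [pc_cons, hh, ← hyc, hL', pc_cons]
  group

theorem ostar_of (hm : m ≠ 0) (H : ∀ g : Gam m, g.k = 0 → g.w ≠ 0 → ∀ l₁ l₂ : List (Gam m),
    l₁ ≠ [] → l₂ ≠ [] → ∃ c, c ∈ NS (pc (pc g l₁) l₂) ∧ c ∈ NS (pc (pc g l₂) l₁)) :
    OStar (Gam m) := by
  apply OStar.of_crit crit1
  rintro g a ⟨l₁, hl₁, rfl⟩ b ⟨l₂, hl₂, rfl⟩
  have key : ∃ c, c ∈ NS (pc (pc g l₁) l₂) ∧ c ∈ NS (pc (pc g l₂) l₁) := by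
    by_cases hk : g.k = 0
    · by_cases hw : g.w = 0
      · have h1 : pc (pc g l₁) l₂ = pc (pc g l₂) l₁ := by
          have hk1 : ∀ l, (pc g l).k = 0 := fun l => by rw [pc_k, hk, mul_zero]
          have hw1 : ∀ l, (pc g l).w = 0 := fun l => by rw [pc_w0 _ hk, hw, S_zero]
          apply Gam.ext
          · rw [pc_z0 _ (hk1 _) (hw1 _), pc_z0 _ (hk1 _) (hw1 _), pc_z0 _ hk hw, pc_z0 _ hk hw,
              SZ_comm]
          · rw [pc_w0 _ (hk1 _), pc_w0 _ (hk1 _), hw1, hw1, S_zero, S_zero]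
          · rw [pc_k (pc g l₁), pc_k (pc g l₂), hk1, hk1, mul_zero, mul_zero]
        rw [h1]
        exact ⟨_, self_mem_NS _, self_mem_NS _⟩
      · exact H g hk hw l₁ l₂ hl₁ hl₂
    · exact crit2_k hm g hk l₁ l₂ hl₁ hl₂
  obtain ⟨c, hc1, hc2⟩ := key
  exact ⟨c, NS_subset ⟨l₂, hl₂, rfl⟩ hc1, NS_subset ⟨l₁, hl₁, rfl⟩ hc2⟩

end Gam

end Pool.Agent.Lib.MP_c4b6f2_al
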