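import Mathlib

set_option autoImplicit false

namespace Pool.Agent.Lib.MP_c4b6f2_al

/-- finitely supported sequences indexed by the integers -/
abbrev V : Type := ℤ →₀ ℚ

/-- the shift -/
noncomputable def s : V ≃ₗ[ℚ] V := Finsupp.domLCongr (Equiv.addRight (1 : ℤ))

theorem s_single (n : ℤ) (a : ℚ) : s (Finsupp.single n a) = Finsupp.single (n + 1) a := by
  simp [s]

theorem s_apply (v : V) (n : ℤ) : s v n = v (n - 1) := by
  simp [s, Finsupp.domLCongr, Finsupp.domCongr, sub_eq_add_neg]

noncomputable def Phi : V →ₗ[ℚ] ℚ := Finsupp.linearCombination ℚ (fun n : ℤ => (-1 : ℚ) ^ n)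
noncomputable def Psi : V →ₗ[ℚ] ℚ := Finsupp.linearCombination ℚ (fun n : ℤ => (-2 : ℚ) ^ n)
noncomputable def beta : V →ₗ[ℚ] V →ₗ[ℚ] ℚ :=
  Finsupp.linearCombination ℚ (fun n : ℤ => (2 : ℚ) ^ n • (Finsupp.lapply (n + 1) : V →ₗ[ℚ] ℚ))

theorem Phi_single (n : ℤ) (a : ℚ) : Phi (Finsupp.single n a) = a * (-1) ^ n := by
  simp [Phi]

theorem Psi_single (n : ℤ) (a : ℚ) : Psi (Finsupp.single n a) = a * (-2) ^ n := by
  simp [Psi]

theorem beta_single_left (n : ℤ) (a : ℚ) (v : V) :
    beta (Finsupp.single n a) v = a * (2 ^ n * v (n + 1)) := by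
  simp [beta]

theorem beta_single_right (n : ℤ) (a : ℚ) (v : V) :
    beta v (Finsupp.single n a) = a * (2 ^ (n - 1) * v (n - 1)) := by
  induction v using Finsupp.induction_linear with
  | zero => simp
  | add f g hf hg => 
    rw [map_add, LinearMap.add_apply, hf, hg, Finsupp.add_apply]
    ring
  | single i b =>
    rw [beta_single_left]
    by_cases h : i = n - 1
    · subst h
      simp
      ring
    · have h1 : (Finsupp.single n a : V) (i + 1) = 0 := by
        rw [Finsupp.single_apply, if_neg]
        omega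
      have h2 : (Finsupp.single i b : V) (n - 1) = 0 := by
        rw [Finsupp.single_apply, if_neg]
        omega
      rw [h1, h2]
      ring

theorem Phi_s (v : V) : Phi (s v) = -Phi v := by
  induction v using Finsupp.induction_linear with
  | zero => simp
  | add f g hf hg => 
    simp only [map_add, hf, hg]
    ring
  | single i b =>
    rw [s_single, Phi_single, Phi_single, zpow_add₀ (by norm_num)]
    ring

theorem Psi_s (v : V) : Psi (s v) = -2 * Psi v := by
  induction v using Finsupp.induction_linear with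
  | zero => simp
  | add f g hf hg => 
    simp only [map_add, hf, hg]
    ring
  | single i b =>
    rw [s_single, Psi_single, Psi_single, zpow_add₀ (by norm_num)]
    ring

theorem beta_s (v v' : V) : beta (s v) (s v') = 2 * beta v v' := by
  induction v using Finsupp.induction_linear with
  | zero => simp
  | add f g hf hg => 
    simp only [map_add, LinearMap.add_apply, hf, hg]
    ring
  | single i b =>
    rw [s_single, beta_single_left, beta_single_left, zpow_add₀ (by norm_num), s_apply]
    rw [show i + 1 + 1 - 1 = i + 1 by ring]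
    ring

/-- the space `W` -/
abbrev W : Type := V × V

/-- the map `t` on `W` -/
noncomputable def tW : W ≃ₗ[ℚ] W :=
  (LinearEquiv.prodComm ℚ V V).trans (LinearEquiv.prodCongr s (LinearEquiv.refl ℚ V))

theorem tW_apply (x : W) : tW x = (s x.2, x.1) := by
  simp [tW]

/-- the space `Z` -/
abbrev Z : Type := ℚ × ℚ

noncomputable def tZ : Z ≃ₗ[ℚ] Z where
  toFun x := (2 * x.2, x.1)
  invFun x := (x.2, x.1 / 2)
  map_add' x y := by ext <;> simp <;> ring
  map_smul' c x := by ext <;> (simp; try ring)
  left_inv x := by ext <;> simp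
  right_inv x := by ext <;> simp; ring

theorem tZ_apply (x : Z) : tZ x = (2 * x.2, x.1) := rfl

/-- the form `ω₁` as a function -/
noncomputable def om1 (x y : W) : ℚ :=
  Phi x.1 * Psi y.2 + beta x.2 y.2 - Phi y.1 * Psi x.2 - beta y.2 x.2

/-- the form `ω` -/
noncomputable def om : W →ₗ[ℚ] W →ₗ[ℚ] Z :=
  LinearMap.mk₂ ℚ (fun x y => (om1 (tW x) (tW y), om1 x y))
    (by
      intro x x' y
      ext <;> simp [om1] <;> ring)
    (by
      intro c x y
      ext <;> simp [om1] <;> ring)
    (by
      intro x y y'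
      ext <;> simp [om1] <;> ring)
    (by
      intro c x y
      ext <;> simp [om1] <;> ring)

theorem om_apply (x y : W) : om x y = (om1 (tW x) (tW y), om1 x y) := rfl

theorem om_self (x : W) : om x x = 0 := by
  rw [om_apply]
  ext <;> simp [om1]

theorem om_swap (x y : W) : om x y = - om y x := by
  rw [om_apply, om_apply]
  ext <;> simp [om1] <;> ring

theorem om1_tt (x y : W) : om1 (tW (tW x)) (tW (tW y)) = 2 * om1 x y := by
  simp only [om1, tW_apply, Phi_s, Psi_s, beta_s]
  ring

theorem om_t (x y : W) : om (tW x) (tW y) = tZ (om x y) := by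
  rw [om_apply, om_apply, tZ_apply, om1_tt]

theorem lmul {M : Type} [AddCommGroup M] [Module ℚ M] (f g : M ≃ₗ[ℚ] M) (x : M) :
    (f * g) x = f (g x) := rfl

theorem lone {M : Type} [AddCommGroup M] [Module ℚ M] (x : M) :
    (1 : M ≃ₗ[ℚ] M) x = x := rfl

theorem om_zpow (k : ℤ) (x y : W) : om ((tW ^ k) x) ((tW ^ k) y) = (tZ ^ k) (om x y) := by
  have key : ∀ k : ℕ, ∀ x y : W, om ((tW ^ k) x) ((tW ^ k) y) = (tZ ^ k) (om x y) := by
    intro k
    induction k with
    | zero => intro x y; simp
    | succ k ih =>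
      intro x y
      rw [pow_succ, pow_succ, lmul, lmul, ih, om_t,
        lmul]
  cases k with
  | ofNat k => simpa using key k x y
  | negSucc k =>
    rw [zpow_negSucc, zpow_negSucc]
    have h := key (k + 1) (((tW ^ (k + 1))⁻¹ : W ≃ₗ[ℚ] W) x) (((tW ^ (k + 1))⁻¹ : W ≃ₗ[ℚ] W) y)
    rw [← lmul, ← lmul, mul_inv_cancel, lone,
      lone] at h
    rw [h, ← lmul, inv_mul_cancel, lone]

end Pool.Agent.Lib.MP_c4b6f2_al
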