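import Mathlib

set_option autoImplicit false

namespace Pool.Agent.Lib.MP_c4b6f2_al

/-- A partial order on a group: a partial order on the underlying set that is invariant under
left and right multiplication. -/
def IsPO (G : Type) [Group G] (le : G → G → Prop) : Prop :=
  (∀ x, le x x) ∧ (∀ x y z, le x y → le y z → le x z) ∧ (∀ x y, le x y → le y x → x = y) ∧
    (∀ x y g h, le x y → le (g * x * h) (g * y * h))

/-- A total order on a group. -/
def IsTO (G : Type) [Group G] (le : G → G → Prop) : Prop :=
  IsPO G le ∧ ∀ x y, le x y ∨ le y x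

/-- Strongly isolated: if a product of (at least one) conjugates `g⁻¹ * a * g` of `a` is `≥ 1`
then `a ≥ 1`. -/
def StronglyIsolated (G : Type) [Group G] (le : G → G → Prop) : Prop :=
  ∀ (a : G) (l : List G), l ≠ [] → le 1 (l.map fun g => g⁻¹ * a * g).prod → le 1 a

/-- `G` is an O*-group: every partial order on `G` extends to a total order on `G`. -/
def OStar (G : Type) [Group G] : Prop :=
  ∀ le : G → G → Prop, IsPO G le →
    ∃ le' : G → G → Prop, IsTO G le' ∧ ∀ x y, le x y → le' x y

/-- `G` is an I**-group: every partial order on `G` extends to a strongly isolated partial order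
on `G`. -/
def IStarStar (G : Type) [Group G] : Prop :=
  ∀ le : G → G → Prop, IsPO G le →
    ∃ le' : G → G → Prop, IsPO G le' ∧ StronglyIsolated G le' ∧ ∀ x y, le x y → le' x y

/-- The weak betweenness property of a class `J` of groups: whenever a group `G₂` and a proper
subgroup `G₁` of `G₂` that is not a maximal subgroup are both in `J`, some subgroup strictly
between `G₁` and `G₂` is in `J`. (`IsCoatom G₁` says that `G₁` is a maximal subgroup.) -/
def WB (J : (G : Type) → [Group G] → Prop) : Prop :=
  ∀ (G₂ : Type) [Group G₂] (G₁ : Subgroup G₂), J G₂ → J G₁ → G₁ < ⊤ → ¬ IsCoatom G₁ →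
    ∃ G : Subgroup G₂, G₁ < G ∧ G < ⊤ ∧ J G

end Pool.Agent.Lib.MP_c4b6f2_al
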