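import Pool.Agent.Lib.MP_c4b6f2_al.Data

set_option autoImplicit false

namespace Pool.Agent.Lib.MP_c4b6f2_al

theorem exists_bound (x : V) : ∃ N : ℤ, ∀ n, N ≤ n → x n = 0 := by
  obtain ⟨N, hN⟩ := x.support.bddAbove
  refine ⟨N + 1, fun n hn => ?_⟩
  by_contra h
  have := hN (Finsupp.mem_support_iff.2 h : n ∈ x.support)
  omega

theorem lemK (x : V) (p q r : ℚ)
    (h : ∀ n : ℤ, p * (-2) ^ n + q * (-1) ^ n + r * (2 ^ (n - 1) * x (n - 1) - 2 ^ n * x (n + 1)) = 0) :
    p = 0 ∧ q = 0 ∧ (r = 0 ∨ x = 0) := by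
  obtain ⟨N, hN⟩ := exists_bound x
  have h1 := h (N + 1)
  have h2 := h (N + 1 + 1)
  rw [hN _ (by omega), hN _ (by omega)] at h1 h2
  rw [zpow_add₀ (by norm_num) (N + 1) 1, zpow_add₀ (by norm_num) (N + 1) 1] at h2
  have hA : ((-2 : ℚ)) ^ (N + 1) ≠ 0 := zpow_ne_zero _ (by norm_num)
  have hB : ((-1 : ℚ)) ^ (N + 1) ≠ 0 := zpow_ne_zero _ (by norm_num)
  have hp : p = 0 := by
    have : p * (-2) ^ (N + 1) = 0 := by
      simp only [zpow_one] at h2
      linarith
    rcases mul_eq_zero.1 this with h | h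
    · exact h
    · exact absurd h hA
  have hq : q = 0 := by
    rw [hp] at h1
    have : q * (-1) ^ (N + 1) = 0 := by linarith
    rcases mul_eq_zero.1 this with h | h
    · exact h
    · exact absurd h hB
  refine ⟨hp, hq, ?_⟩
  by_cases hr : r = 0
  · exact Or.inl hr
  · right
    have h3 : ∀ n : ℤ, x n = 2 * x (n + 2) := by
      intro n
      have h4 := h (n + 1)
      rw [hp, hq] at h4
      simp only [zero_mul, zero_add, mul_eq_zero, hr, false_or] at h4
      rw [show n + 1 - 1 = n by ring, show n + 1 + 1 = n + 2 by ring, zpow_add₀ (by norm_num)] at h4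
      have h5 : ((2 : ℚ)) ^ n ≠ 0 := zpow_ne_zero _ (by norm_num)
      have h6 : (2 : ℚ) ^ n * (x n - 2 * x (n + 2)) = 0 := by
        simp only [zpow_one] at h4
        linarith
      rcases mul_eq_zero.1 h6 with h | h
      · exact absurd h h5
      · linarith
    have h4 : ∀ j : ℕ, ∀ n : ℤ, N - j ≤ n → x n = 0 := by
      intro j
      induction j with
      | zero => 
        intro n hn
        exact hN n (by simpa using hn)
      | succ j ih =>
        intro n hn
        push_cast at hn
        rw [h3, ih (n + 2) (by omega), mul_zero]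
    ext n
    exact h4 (N - n).toNat n (by omega)

theorem keyfact (x : W) (α γ : ℚ) (h : ∀ y, α * om1 (tW y) (tW x) + γ * om1 y x = 0) :
    (α = 0 ∨ (x.1 = 0 ∧ Phi x.2 = 0)) ∧ (γ = 0 ∨ (x.2 = 0 ∧ Phi x.1 = 0)) := by
  have h1 := lemK x.1 (α * Phi x.2) (γ * Psi x.2) (-α) (by
    intro n
    have := h (Finsupp.single n 1, 0)
    simp only [om1, tW_apply, map_zero, zero_mul, beta_single_left, beta_single_right, Phi_s,
      Phi_single, Psi_single, LinearMap.zero_apply] at this
    rw [← this]
    ring)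
  have h2 := lemK x.2 (-γ * Phi x.1) (-α * Psi x.1) (-γ) (by
    intro n
    have := h (0, Finsupp.single n 1)
    simp only [om1, tW_apply, map_zero, zero_mul, beta_single_left, beta_single_right, Phi_s,
      Phi_single, Psi_single, LinearMap.zero_apply] at this
    rw [← this]
    ring)
  obtain ⟨h3, h4, h5⟩ := h1
  obtain ⟨h6, h7, h8⟩ := h2
  constructor
  · by_cases hα : α = 0
    · exact Or.inl hα
    · right
      refine ⟨?_, ?_⟩
      · rcases h5 with h | h
        · exact absurd (neg_eq_zero.1 h) hα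
        · exact h
      · rcases mul_eq_zero.1 h3 with h | h
        · exact absurd h hα
        · exact h
  · by_cases hγ : γ = 0
    · exact Or.inl hγ
    · right
      refine ⟨?_, ?_⟩
      · rcases h8 with h | h
        · exact absurd (neg_eq_zero.1 h) hγ
        · exact h
      · rcases mul_eq_zero.1 h6 with h | h
        · exact absurd (neg_eq_zero.1 h) hγ
        · exact h

/-- if `x` is not in either radical then `ω(W, x) = Z` -/
theorem surj_of_not (x : W) (h1 : ¬ (x.1 = 0 ∧ Phi x.2 = 0)) (h2 : ¬ (x.2 = 0 ∧ Phi x.1 = 0)) 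
    (z : Z) : ∃ y, om y x = z := by
  by_contra hcon
  have h3 : z ∉ LinearMap.range (om.flip x) := by
    rintro ⟨y, hy⟩
    exact hcon ⟨y, hy⟩
  obtain ⟨f, hf, hf'⟩ := Submodule.exists_dual_map_eq_bot_of_notMem h3 inferInstance
  have hf2 : ∀ w : Z, f w = f (1, 0) * w.1 + f (0, 1) * w.2 := by
    intro w
    have : w = w.1 • (1, 0) + w.2 • (0, 1) := by ext <;> simp
    conv_lhs => rw [this, map_add, map_smul, map_smul]
    simp [mul_comm]
  have h4 : ∀ y, f (1, 0) * om1 (tW y) (tW x) + f (0, 1) * om1 y x = 0 := by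
    intro y
    have h5 : f (om y x) = 0 := by
      have : f (om.flip x y) ∈ (LinearMap.range (om.flip x)).map f := ⟨_, ⟨y, rfl⟩, rfl⟩
      rw [hf'] at this
      exact this
    rw [hf2, om_apply] at h5
    exact h5
  obtain ⟨h5, h6⟩ := keyfact x _ _ h4
  have h7 : f (1, 0) = 0 := h5.resolve_right h1
  have h8 : f (0, 1) = 0 := h6.resolve_right h2
  apply hf
  rw [hf2, h7, h8]
  ring

/-- the two radicals -/
theorem om1_rad (x y : W) (h : x.2 = 0 ∧ Phi x.1 = 0) : om1 y x = 0 := by
  obtain ⟨h1, h2⟩ := h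
  simp [om1, h1, h2]

theorem om1_rad' (x y : W) (h : x.1 = 0 ∧ Phi x.2 = 0) : om1 (tW y) (tW x) = 0 := by
  obtain ⟨h1, h2⟩ := h
  simp [om1, h1, h2, tW_apply, Phi_s]

theorem not_both (x : W) (hx : x ≠ 0) (h1 : x.1 = 0 ∧ Phi x.2 = 0) (h2 : x.2 = 0 ∧ Phi x.1 = 0) :
    False := hx (Prod.ext h1.1 h2.1)

/-- in the radical case the image is a coordinate axis -/
theorem surj_rad (x : W) (hx : x ≠ 0) (h : x.2 = 0 ∧ Phi x.1 = 0) (z : Z) (hz : z.2 = 0) :
    ∃ y, om y x = z := by
  have h1 : ∃ y, om1 (tW y) (tW x) ≠ 0 := by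
    by_contra hcon
    push Not at hcon
    obtain ⟨h3, -⟩ := keyfact x 1 0 (by intro y; rw [hcon]; ring)
    exact not_both x hx (h3.resolve_left one_ne_zero) h
  obtain ⟨y, hy⟩ := h1
  refine ⟨(z.1 / om1 (tW y) (tW x)) • y, ?_⟩
  rw [map_smul, LinearMap.smul_apply, om_apply, om1_rad x y h]
  ext
  · simp [hy]
  · simp [hz]

theorem surj_rad' (x : W) (hx : x ≠ 0) (h : x.1 = 0 ∧ Phi x.2 = 0) (z : Z) (hz : z.1 = 0) :
    ∃ y, om y x = z := by
  have h1 : ∃ y, om1 y x ≠ 0 := by
    by_contra hcon
    push Not at hcon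
    obtain ⟨-, h3⟩ := keyfact x 0 1 (by intro y; rw [hcon]; ring)
    exact not_both x hx h (h3.resolve_left one_ne_zero)
  obtain ⟨y, hy⟩ := h1
  refine ⟨(z.2 / om1 y x) • y, ?_⟩
  rw [map_smul, LinearMap.smul_apply, om_apply, om1_rad' x y h]
  ext
  · simp [hz]
  · simp [hy]

/-- coordinates -/
noncomputable def co (i : ℤ) (x : W) : ℚ := if Even i then x.1 (i / 2) else x.2 (i / 2)

theorem co_t (i : ℤ) (x : W) : co i (tW x) = co (i - 1) x := by
  unfold co
  rw [tW_apply]
  rcases Int.even_or_odd i with h | h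
  · rw [if_pos h, if_neg (by rw [Int.not_even_iff_odd]; exact h.sub_odd odd_one), s_apply]
    obtain ⟨r, rfl⟩ := h
    congr 1
    omega
  · rw [if_neg (by rw [Int.not_even_iff_odd]; exact h), if_pos (h.sub_odd odd_one)]
    obtain ⟨r, rfl⟩ := h
    congr 1
    omega

theorem co_zpow (k : ℤ) (i : ℤ) (x : W) : co i ((tW ^ k) x) = co (i - k) x := by
  have key : ∀ k : ℕ, ∀ i : ℤ, ∀ x : W, co i ((tW ^ k) x) = co (i - k) x := by
    intro k
    induction k with
    | zero => intro i x; simp
    | succ k ih =>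
      intro i x
      rw [pow_succ', lmul, co_t, ih]
      congr 1
      push_cast
      ring
  cases k with
  | ofNat k => simpa using key k i x
  | negSucc k =>
    rw [zpow_negSucc]
    have h := key (k + 1) (i - Int.negSucc k) (((tW ^ (k + 1))⁻¹ : W ≃ₗ[ℚ] W) x)
    rw [← lmul, mul_inv_cancel, lone] at h
    rw [h]
    congr 1
    rw [Int.negSucc_eq]
    push_cast
    ring

theorem co_add (i : ℤ) (x y : W) : co i (x + y) = co i x + co i y := by
  unfold co
  split_ifs <;> simp

theorem co_zero (i : ℤ) : co i (0 : W) = 0 := by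
  unfold co
  split_ifs <;> simp

theorem exists_top (x : W) (hx : x ≠ 0) : ∃ i, co i x ≠ 0 ∧ ∀ j, co j x ≠ 0 → j ≤ i := by
  apply Int.exists_greatest_of_bdd
  · obtain ⟨N₁, h1⟩ := exists_bound x.1
    obtain ⟨N₂, h2⟩ := exists_bound x.2
    refine ⟨2 * max N₁ N₂ + 2, fun j hj => ?_⟩
    by_contra hcon
    push Not at hcon
    apply hj
    unfold co
    split_ifs with h
    · apply h1
      omega
    · apply h2
      omega
  · by_contra hcon
    push Not at hcon
    apply hx
    ext n
    · have := hcon (2 * n)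
      unfold co at this
      rw [if_pos (even_two_mul n)] at this
      simpa using this
    · have := hcon (2 * n + 1)
      unfold co at this
      rw [if_neg (by rw [Int.not_even_iff_odd]; exact odd_two_mul_add_one n)] at this
      rw [show (2 * n + 1) / 2 = n by omega] at this
      exact this

theorem exists_max_list (l : List ℤ) (hl : l ≠ []) : ∃ K ∈ l, ∀ k ∈ l, k ≤ K := by
  induction l with
  | nil => exact absurd rfl hl
  | cons a l ih =>
    by_cases h : l = []
    · subst h
      exact ⟨a, by simp, by simp⟩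
    · obtain ⟨K, hK, hK'⟩ := ih h
      rcases le_total a K with h1 | h1
      · refine ⟨K, List.mem_cons_of_mem _ hK, ?_⟩
        intro k hk
        rcases List.mem_cons.1 hk with rfl | hk
        · exact h1
        · exact hK' k hk
      · refine ⟨a, List.mem_cons_self, ?_⟩
        intro k hk
        rcases List.mem_cons.1 hk with rfl | hk
        · exact le_rfl
        · exact (hK' k hk).trans h1

theorem sum_pos_of {ι R : Type} [AddCommGroup R] [LinearOrder R] [IsOrderedAddMonoid R] (f : ι → R) (l : List ι)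
    (h : ∀ k ∈ l, 0 ≤ f k) (K : ι) (hK : K ∈ l) (hf : 0 < f K) : 0 < (l.map f).sum := by
  induction l with
  | nil => simp at hK
  | cons a l ih =>
    rw [List.map_cons, List.sum_cons]
    have h0 : 0 ≤ (l.map f).sum := by
      apply List.sum_nonneg
      intro x hx
      obtain ⟨k, hk, rfl⟩ := List.mem_map.1 hx
      exact h k (List.mem_cons_of_mem _ hk)
    rcases List.mem_cons.1 hK with rfl | hK
    · exact add_pos_of_pos_of_nonneg hf h0
    · exact add_pos_of_nonneg_of_pos (h a List.mem_cons_self)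
        (ih (fun k hk => h k (List.mem_cons_of_mem _ hk)) hK)

theorem h1W (x : W) (hx : x ≠ 0) (l : List ℤ) (hl : l ≠ []) :
    (l.map fun k => (tW ^ k) x).sum ≠ 0 := by
  obtain ⟨i, hi, hi'⟩ := exists_top x hx
  obtain ⟨K, hK, hK'⟩ := exists_max_list l hl
  intro hcon
  have h1 : ∀ l : List ℤ, co (i + K) (l.map fun k => (tW ^ k) x).sum =
      (l.map fun k => co (i + K - k) x).sum := by
    intro l
    induction l with
    | nil => simp [co_zero]
    | cons a l ih => rw [List.map_cons, List.sum_cons, co_add, ih, co_zpow, List.map_cons,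
        List.sum_cons]
  have h2 := h1 l
  rw [hcon, co_zero] at h2
  have h3 : 0 < (l.map fun k => co (i + K - k) x * co i x).sum := by
    apply sum_pos_of _ _ _ K hK
    · rw [show i + K - K = i by ring]
      exact mul_self_pos.2 hi
    · intro k hk
      rcases (hK' k hk).eq_or_lt with rfl | h
      · rw [show i + k - k = i by ring]
        exact mul_self_nonneg _
      · have : co (i + K - k) x = 0 := by
          by_contra h4
          have := hi' _ h4
          omega
        rw [this, zero_mul]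
  rw [List.sum_map_mul_right, ← h2, zero_mul] at h3
  exact lt_irrefl _ h3

/-- the real embedding of `Z` -/
noncomputable def rho (z : Z) : ℝ := z.1 + z.2 * √2

theorem rho_add (z z' : Z) : rho (z + z') = rho z + rho z' := by
  simp [rho]
  ring

theorem rho_t (z : Z) : rho (tZ z) = √2 * rho z := by
  have : √2 * √2 = (2 : ℝ) := Real.mul_self_sqrt (by norm_num)
  simp only [rho, tZ_apply]
  push_cast
  linear_combination (-(z.2 : ℝ)) * this

theorem rho_zpow (k : ℤ) (z : Z) : rho ((tZ ^ k) z) = √2 ^ k * rho z := by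
  have h0 : (√2 : ℝ) ≠ 0 := by positivity
  have key : ∀ k : ℕ, ∀ z : Z, rho ((tZ ^ k) z) = √2 ^ k * rho z := by
    intro k
    induction k with
    | zero => intro z; simp
    | succ k ih =>
      intro z
      rw [pow_succ', lmul, rho_t, ih, pow_succ']
      ring
  cases k with
  | ofNat k => simpa using key k z
  | negSucc k =>
    rw [zpow_negSucc, zpow_negSucc]
    have h := key (k + 1) (((tZ ^ (k + 1))⁻¹ : Z ≃ₗ[ℚ] Z) z)
    rw [← lmul, mul_inv_cancel, lone] at h
    rw [h]
    field_simp

theorem rho_inj (z : Z) (h : rho z = 0) : z = 0 := by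
  unfold rho at h
  by_cases h2 : z.2 = 0
  · rw [h2] at h
    simp only [Rat.cast_zero, zero_mul, add_zero, Rat.cast_eq_zero] at h
    exact Prod.ext h h2
  · exfalso
    have h3 : ((-z.1 / z.2 : ℚ) : ℝ) = √2 := by
      push_cast
      have : (z.2 : ℝ) ≠ 0 := by exact_mod_cast h2
      field_simp
      linarith
    exact irrational_sqrt_two ⟨_, h3⟩

theorem rho_zero : rho 0 = 0 := by simp [rho]

theorem h2Z (z : Z) (hz : z ≠ 0) (l : List ℤ) (hl : l ≠ []) :
    (l.map fun k => (tZ ^ k) z).sum ≠ 0 := by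
  intro hcon
  have h1 : ∀ l : List ℤ, rho (l.map fun k => (tZ ^ k) z).sum = 
      (l.map fun k => (√2 : ℝ) ^ k).sum * rho z := by
    intro l
    induction l with
    | nil => simp [rho_zero]
    | cons a l ih => 
      rw [List.map_cons, List.sum_cons, rho_add, ih, rho_zpow, List.map_cons, List.sum_cons]
      ring
  have h2 := h1 l
  rw [hcon, rho_zero] at h2
  rcases mul_eq_zero.1 h2.symm with h | h
  · obtain ⟨K, hK⟩ := List.exists_mem_of_ne_nil l hl
    have := sum_pos_of (fun k => (√2 : ℝ) ^ k) l (fun k _ => by positivity) K hK (by positivity)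
    rw [h] at this
    exact lt_irrefl _ this
  · exact hz (rho_inj z h)

theorem h3Z (k : ℤ) (hk : k ≠ 0) (z : Z) : ∃ z', z' - (tZ ^ k) z' = z := by
  let f : Z →ₗ[ℚ] Z := LinearMap.id - ((tZ ^ k : Z ≃ₗ[ℚ] Z) : Z →ₗ[ℚ] Z)
  have hf : Function.Injective f := by
    rw [← LinearMap.ker_eq_bot, LinearMap.ker_eq_bot']
    intro z hz
    have h1 : z = (tZ ^ k) z := by
      have : z - (tZ ^ k) z = 0 := hz
      exact sub_eq_zero.1 this
    have h2 := rho_zpow k z
    rw [← h1] at h2
    by_contra h3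
    have h4 : rho z ≠ 0 := fun h => h3 (rho_inj z h)
    have h5 : (√2 : ℝ) ^ k = 1 := by
      have : (√2 : ℝ) ^ k * rho z = 1 * rho z := by rw [one_mul]; exact h2.symm
      exact mul_right_cancel₀ h4 this
    have h6 : (1 : ℝ) < √2 := by
      rw [Real.lt_sqrt (by norm_num)]
      norm_num
    rcases lt_or_gt_of_ne hk with h | h
    · have := zpow_lt_one_of_neg₀ h6 h
      linarith
    · have := one_lt_zpow₀ h6 h
      linarith
  obtain ⟨z', hz'⟩ := (LinearMap.injective_iff_surjective.1 hf) z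
  exact ⟨z', hz'⟩

end Pool.Agent.Lib.MP_c4b6f2_al
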