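import Pool.Agent.Lib.MP_c4b6f2_al.Facts

set_option autoImplicit false

namespace Pool.Agent.Lib.MP_c4b6f2_al

/-- the group `Γ(t^m)` -/
@[ext] structure Gam (m : ℤ) where
  z : Z
  w : W
  k : ℤ

namespace Gam

variable {m : ℤ}

/-- action of `k` on `Z` -/
noncomputable def aZ (m k : ℤ) : Z ≃ₗ[ℚ] Z := tZ ^ (m * k)
/-- action of `k` on `W` -/
noncomputable def aW (m k : ℤ) : W ≃ₗ[ℚ] W := tW ^ (m * k)

theorem aZ_add (k l : ℤ) (x : Z) : aZ m (k + l) x = aZ m k (aZ m l x) := by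
  unfold aZ
  rw [mul_add, zpow_add, lmul]

theorem aW_add (k l : ℤ) (x : W) : aW m (k + l) x = aW m k (aW m l x) := by
  unfold aW
  rw [mul_add, zpow_add, lmul]

@[simp] theorem aZ_zero (x : Z) : aZ m 0 x = x := by
  unfold aZ
  rw [mul_zero, zpow_zero, lone]

@[simp] theorem aW_zero (x : W) : aW m 0 x = x := by
  unfold aW
  rw [mul_zero, zpow_zero, lone]

theorem om_a (k : ℤ) (x y : W) : om (aW m k x) (aW m k y) = aZ m k (om x y) := om_zpow _ _ _

noncomputable instance : Mul (Gam m) :=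
  ⟨fun x y => ⟨x.z + aZ m x.k y.z + (1 / 2 : ℚ) • om x.w (aW m x.k y.w),
    x.w + aW m x.k y.w, x.k + y.k⟩⟩

noncomputable instance : One (Gam m) := ⟨⟨0, 0, 0⟩⟩

noncomputable instance : Inv (Gam m) := ⟨fun x => ⟨-aZ m (-x.k) x.z, -aW m (-x.k) x.w, -x.k⟩⟩

theorem mul_z (x y : Gam m) :
    (x * y).z = x.z + aZ m x.k y.z + (1 / 2 : ℚ) • om x.w (aW m x.k y.w) := rfl
theorem mul_w (x y : Gam m) : (x * y).w = x.w + aW m x.k y.w := rfl
@[simp] theorem mul_k (x y : Gam m) : (x * y).k = x.k + y.k := rfl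
@[simp] theorem one_z : (1 : Gam m).z = 0 := rfl
@[simp] theorem one_w : (1 : Gam m).w = 0 := rfl
@[simp] theorem one_k : (1 : Gam m).k = 0 := rfl
theorem inv_z (x : Gam m) : (x⁻¹).z = -aZ m (-x.k) x.z := rfl
theorem inv_w (x : Gam m) : (x⁻¹).w = -aW m (-x.k) x.w := rfl
@[simp] theorem inv_k (x : Gam m) : (x⁻¹).k = -x.k := rfl

noncomputable instance : Group (Gam m) := Group.ofLeftAxioms
  (by
    intro x y z
    apply Gam.ext
    · rw [mul_z, mul_z, mul_z, mul_z, mul_w, mul_w, mul_k, aZ_add, aW_add]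
      simp only [map_add, map_smul, LinearMap.add_apply, ← om_a, smul_add]
      abel
    · rw [mul_w, mul_w, mul_w, mul_w, mul_k, aW_add, map_add, add_assoc]
    · rw [mul_k, mul_k, mul_k, mul_k, add_assoc])
  (by
    intro x
    apply Gam.ext
    · rw [mul_z]
      simp
    · rw [mul_w]
      simp
    · simp)
  (by
    intro x
    apply Gam.ext
    · rw [mul_z, inv_z, inv_w, inv_k]
      simp [om_self]
    · rw [mul_w, inv_w, inv_k]
      simp
    · simp)

/-- conjugates of elements -/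
theorem conj_w (h g : Gam m) : (h * g * h⁻¹).w = h.w + aW m h.k g.w - aW m g.k h.w := by
  rw [mul_w, mul_w, inv_w, mul_k, map_neg, ← aW_add,
    show h.k + g.k + -h.k = g.k by ring]
  abel

@[simp] theorem conj_k (h g : Gam m) : (h * g * h⁻¹).k = g.k := by
  simp

theorem conj_z (h g : Gam m) (hg : g.k = 0) :
    (h * g * h⁻¹).z = aZ m h.k g.z + om h.w (aW m h.k g.w) := by
  rw [mul_z, mul_z, mul_w, inv_z, inv_w, mul_k, hg, map_neg, map_neg, ← aW_add, ← aZ_add,
    show h.k + 0 + -h.k = 0 by ring, aW_zero, aZ_zero, map_neg, map_add, LinearMap.add_apply,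
    om_self, om_swap (aW m h.k g.w) h.w]
  module

theorem conj_w0 (h g : Gam m) (hg : g.k = 0) : (h * g * h⁻¹).w = aW m h.k g.w := by
  rw [conj_w, hg, aW_zero]
  abel

end Gam

end Pool.Agent.Lib.MP_c4b6f2_al
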