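import Pool.Agent.Lib.MP_c4b6f2_al.NotH

set_option autoImplicit false

namespace Pool.Agent.Lib.MP_c4b6f2_al

namespace Gam

theorem aZ_one_mul (n k : ℤ) : aZ 1 (n * k) = aZ n k := by
  unfold aZ
  rw [one_mul]

theorem aW_one_mul (n k : ℤ) : aW 1 (n * k) = aW n k := by
  unfold aW
  rw [one_mul]

/-- the embedding of `Γ(t^n)` in `Γ(t)` -/
def iota (n : ℤ) : Gam n →* Gam 1 where
  toFun x := ⟨x.z, x.w, n * x.k⟩
  map_one' := by
    apply Gam.ext
    · rfl
    · rfl
    · simp
  map_mul' x y := by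
    apply Gam.ext
    · rw [mul_z, mul_z]
      simp only [aZ_one_mul, aW_one_mul]
    · rw [mul_w, mul_w]
      simp only [aW_one_mul]
    · rw [mul_k, mul_k]
      simp only
      ring

theorem iota_injective (n : ℤ) (hn : n ≠ 0) : Function.Injective (iota n) := by
  intro x y h
  have h1 := congrArg Gam.z h
  have h2 := congrArg Gam.w h
  have h3 := congrArg Gam.k h
  exact Gam.ext h1 h2 (mul_left_cancel₀ hn h3)

theorem mem_range_iota (n : ℤ) (x : Gam 1) : x ∈ (iota n).range ↔ n ∣ x.k := by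
  constructor
  · rintro ⟨y, rfl⟩
    exact ⟨y.k, rfl⟩
  · rintro ⟨k, hk⟩
    exact ⟨⟨x.z, x.w, k⟩, Gam.ext rfl rfl hk.symm⟩

/-- the power of the stable letter -/
def e (j : ℤ) : Gam 1 := ⟨0, 0, j⟩

theorem e_add (i j : ℤ) : e (i + j) = e i * e j := by
  apply Gam.ext
  · rw [mul_z]; simp [e]
  · rw [mul_w]; simp [e]
  · simp [e]

theorem e_neg (i : ℤ) : e (-i) = (e i)⁻¹ := by
  apply Gam.ext
  · rw [inv_z]; simp [e]
  · rw [inv_w]; simp [e]
  · simp [e]

theorem decomp (x : Gam 1) : x = ⟨x.z, x.w, 0⟩ * e x.k := by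
  apply Gam.ext
  · rw [mul_z]; simp [e]
  · rw [mul_w]; simp [e]
  · simp [e]

theorem mem_iff (G : Subgroup (Gam 1)) (hG : (iota 4).range ≤ G) (x : Gam 1) :
    x ∈ G ↔ e x.k ∈ G := by
  have h1 : (⟨x.z, x.w, 0⟩ : Gam 1) ∈ G := hG ((mem_range_iota 4 _).2 (dvd_zero _))
  constructor
  · intro h
    rw [decomp x] at h
    exact (Subgroup.mul_mem_cancel_left G h1).1 h
  · intro h
    rw [decomp x]
    exact G.mul_mem h1 h

theorem unique_between (G : Subgroup (Gam 1)) (h1 : (iota 4).range < G) (h2 : G < ⊤) :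
    G = (iota 2).range := by
  have hG := h1.le
  have h4 : ∀ q : ℤ, e (4 * q) ∈ G := fun q => hG ((mem_range_iota 4 _).2 ⟨q, rfl⟩)
  have hadd : ∀ q r : ℤ, e (4 * q + r) ∈ G ↔ e r ∈ G := by
    intro q r
    rw [e_add]
    exact Subgroup.mul_mem_cancel_left G (h4 q)
  have hn1 : e 1 ∉ G := by
    intro h
    apply h2.ne
    rw [eq_top_iff]
    rintro x -
    rw [mem_iff G hG]
    have key : ∀ n : ℕ, e n ∈ G := by
      intro n
      induction n with
      | zero => exact G.one_mem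
      | succ n ih =>
        push_cast
        rw [e_add]
        exact G.mul_mem ih h
    rcases Int.eq_nat_or_neg x.k with ⟨n, hn | hn⟩
    · rw [hn]
      exact key n
    · rw [hn, e_neg]
      exact G.inv_mem (key n)
  have hn3 : e 3 ∉ G := by
    intro h
    apply hn1
    have := (hadd 1 (-3)).2 (by rw [e_neg]; exact G.inv_mem h)
    norm_num at this
    exact this
  have heven : ∀ x ∈ G, (2 : ℤ) ∣ x.k := by
    intro x hx
    rw [mem_iff G hG] at hx
    by_contra h
    have h5 : x.k = 4 * (x.k / 4) + x.k % 4 := (Int.mul_ediv_add_emod x.k 4).symm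
    have h6 : x.k % 4 = 1 ∨ x.k % 4 = 3 := by omega
    rw [h5, hadd] at hx
    rcases h6 with h6 | h6
    · rw [h6] at hx
      exact hn1 hx
    · rw [h6] at hx
      exact hn3 hx
  obtain ⟨x, hxG, hx⟩ := Set.exists_of_ssubset h1
  have hx' : ¬ (4 : ℤ) ∣ x.k := fun h => hx ((mem_range_iota 4 _).2 h)
  have hx2 := heven x hxG
  have h2G : e 2 ∈ G := by
    have h5 : x.k = 4 * (x.k / 4) + 2 := by omega
    have h6 := (mem_iff G hG x).1 hxG
    rw [h5, hadd] at h6
    exact h6
  apply le_antisymm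
  · intro y hy
    exact (mem_range_iota 2 _).2 (heven y hy)
  · intro y hy
    have h7 := (mem_range_iota 2 _).1 hy
    rw [mem_iff G hG]
    have h8 : y.k = 4 * (y.k / 4) + y.k % 4 := (Int.mul_ediv_add_emod y.k 4).symm
    have h9 : y.k % 4 = 0 ∨ y.k % 4 = 2 := by omega
    rw [h8, hadd]
    rcases h9 with h9 | h9
    · rw [h9]
      exact G.one_mem
    · rw [h9]
      exact h2G

theorem not_WB (J : (G : Type) → [Group G] → Prop) (h1 : J (Gam 1)) (h4 : J (Gam 4))
    (h2 : ¬ J (Gam 2))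
    (hiso : ∀ (G G' : Type) [Group G] [Group G'], (G ≃* G') → J G → J G') : ¬ WB J := by
  intro h
  have hlt1 : (iota 4).range < (iota 2).range := by
    rw [SetLike.lt_iff_le_and_exists]
    refine ⟨?_, e 2, (mem_range_iota 2 _).2 (dvd_refl _), ?_⟩
    · intro x hx
      rw [mem_range_iota] at *
      exact (by norm_num : (2 : ℤ) ∣ 4).trans hx
    · rw [mem_range_iota]
      show ¬ (4 : ℤ) ∣ 2
      norm_num
  have hlt2 : (iota 2).range < ⊤ := by
    rw [lt_top_iff_ne_top]
    intro h5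
    have h6 : e 1 ∈ (iota 2).range := by rw [h5]; trivial
    rw [mem_range_iota] at h6
    have h7 : (2 : ℤ) ∣ 1 := h6
    norm_num at h7
  obtain ⟨G, hG1, hG2, hG3⟩ := h (Gam 1) (iota 4).range h1
    (hiso _ _ (MonoidHom.ofInjective (iota_injective 4 (by norm_num))) h4)
    (hlt1.trans hlt2) (fun hc => (hc.2 _ hlt1 ▸ hlt2.ne) rfl)
  have := unique_between G hG1 hG2
  subst this
  exact h2 (hiso _ _ (MonoidHom.ofInjective (iota_injective 2 (by norm_num))).symm hG3)

end Gam

theorem IStarStar.of_equiv {G G' : Type} [Group G] [Group G'] (e : G ≃* G') (h : IStarStar G) :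
    IStarStar G' := by
  intro le hle
  obtain ⟨h1, h2, h3, h4⟩ := hle
  obtain ⟨le', ⟨k1, k2, k3, k4⟩, k5, k6⟩ := h (fun x y => le (e x) (e y)) (by
    refine ⟨fun x => h1 _, fun x y z => h2 _ _ _, fun x y hxy hyx => e.injective (h3 _ _ hxy hyx),
      ?_⟩
    intro x y g t hxy
    rw [map_mul, map_mul, map_mul, map_mul]
    exact h4 _ _ _ _ hxy)
  refine ⟨fun x y => le' (e.symm x) (e.symm y), ⟨fun x => k1 _, fun x y z => k2 _ _ _,
    fun x y hxy hyx => e.symm.injective (k3 _ _ hxy hyx), ?_⟩, ?_, ?_⟩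
  · intro x y g t hxy
    rw [map_mul, map_mul, map_mul, map_mul]
    exact k4 _ _ _ _ hxy
  · intro a l hl hprod
    rw [map_one] at *
    apply k5 (e.symm a) (l.map e.symm) (by simpa using hl)
    rw [map_list_prod, List.map_map] at hprod
    rw [List.map_map]
    have h5 : (e.symm ∘ fun g => g⁻¹ * a * g) =
        ((fun g => g⁻¹ * e.symm a * g) ∘ e.symm) := by
      funext g
      simp
    rw [h5] at hprod
    exact hprod
  · intro x y hxy
    apply k6
    simpa using hxy

theorem not_wb_ostar : ¬ WB OStar :=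
  Gam.not_WB OStar Gam.ostar_one Gam.ostar_four (fun h => Gam.not_iss_two h.iStarStar)
    (fun _ _ _ _ e h => h.of_equiv e)

theorem not_wb_istarstar : ¬ WB IStarStar :=
  Gam.not_WB IStarStar Gam.ostar_one.iStarStar Gam.ostar_four.iStarStar Gam.not_iss_two
    (fun _ _ _ _ e h => h.of_equiv e)

end Pool.Agent.Lib.MP_c4b6f2_al
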