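import Pool.Agent.Lib.MP_c4b6f2_al.Cases

set_option autoImplicit false

namespace Pool.Agent.Lib.MP_c4b6f2_al

namespace Gam

theorem tW2 (x : W) : (tW ^ (2 : ℤ)) x = (s x.1, s x.2) := by
  have : (tW ^ (2 : ℤ) : W ≃ₗ[ℚ] W) = tW * tW := by
    rw [show (2 : ℤ) = ((2 : ℕ) : ℤ) by norm_num, zpow_natCast, pow_succ, pow_one]
  rw [this, lmul]
  simp only [tW_apply]

theorem tZ2 (x : Z) : (tZ ^ (2 : ℤ)) x = (2 * x.1, 2 * x.2) := by
  have : (tZ ^ (2 : ℤ) : Z ≃ₗ[ℚ] Z) = tZ * tZ := by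
    rw [show (2 : ℤ) = ((2 : ℕ) : ℤ) by norm_num, zpow_natCast, pow_succ, pow_one]
  rw [this, lmul]
  simp only [tZ_apply]

theorem aZ2_snd (k : ℤ) (z : Z) : (aZ 2 k z).2 = 2 ^ k * z.2 := by
  unfold aZ
  rw [zpow_mul]
  exact zpow_eig _ (fun z : Z => z.2) 2 (by norm_num) (fun x => by rw [tZ2]) k z

theorem aW2_fst (k : ℤ) (x : W) : (aW 2 k x).1 = (s ^ k) x.1 := by
  unfold aW
  rw [zpow_mul]
  exact zpow_intertwine _ s (fun z : W => z.1) (fun x => by rw [tW2]) k x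

theorem aW2_snd (k : ℤ) (x : W) : (aW 2 k x).2 = (s ^ k) x.2 := by
  unfold aW
  rw [zpow_mul]
  exact zpow_intertwine _ s (fun z : W => z.2) (fun x => by rw [tW2]) k x

theorem Phi_sk (k : ℤ) (v : V) : Phi ((s ^ k : V ≃ₗ[ℚ] V) v) = (-1) ^ k * Phi v :=
  zpow_eig s (fun v => Phi v) (-1) (by norm_num) (fun x => by rw [Phi_s]; ring) k v

/-- the positive cone on `Γ(t²)` -/
def P : Set (Gam 2) := {x | x = 1 ∨ (x.k = 0 ∧ (x.w.2 = 0 ∧ Phi x.w.1 = 0) ∧ 0 < x.z.2)}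

theorem P_cone : IsCone P where
  one := Or.inl rfl
  mul := by
    rintro x (rfl | ⟨h1, h2, h3⟩) y hy
    · rwa [one_mul]
    rcases hy with rfl | ⟨h4, h5, h6⟩
    · rw [mul_one]
      exact Or.inr ⟨h1, h2, h3⟩
    · right
      refine ⟨by rw [mul_k, h1, h4, add_zero], ⟨?_, ?_⟩, ?_⟩
      · rw [mul_w, h1, aW_zero, Prod.snd_add, h2.1, h5.1, add_zero]
      · rw [mul_w, h1, aW_zero, Prod.fst_add, map_add, h2.2, h5.2, add_zero]
      · rw [mul_z, h1, aW_zero, aZ_zero, Prod.snd_add, Prod.snd_add, Prod.smul_snd, om_apply,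
          om1_rad _ _ h5]
        simp only [smul_zero, add_zero]
        exact add_pos h3 h6
  conj := by
    rintro x (rfl | ⟨h1, h2, h3⟩) t
    · left
      simp
    · right
      have h4 : (aW 2 t.k x.w).2 = 0 ∧ Phi (aW 2 t.k x.w).1 = 0 := by
        rw [aW2_fst, aW2_snd, Phi_sk, h2.1, h2.2]
        simp
      refine ⟨by rw [conj_k, h1], ?_, ?_⟩
      · rw [conj_w0 _ _ h1]
        exact h4
      · rw [conj_z _ _ h1, Prod.snd_add, aZ2_snd, om_apply, om1_rad _ _ h4, add_zero]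
        positivity
  anti := by
    rintro x (h | ⟨h1, h2, h3⟩) hx
    · exact h
    rcases hx with h | ⟨h4, h5, h6⟩
    · exact inv_eq_one.1 h
    · exfalso
      rw [inv_z, h1, neg_zero, aZ_zero, Prod.snd_neg] at h6
      linarith

theorem pos_elt (le : Gam 2 → Gam 2 → Prop) (hsi : StronglyIsolated (Gam 2) le)
    (hext : ∀ x y : Gam 2, x⁻¹ * y ∈ P → le x y) (ε : ℚ) (hε : ε * ε = 1) :
    le 1 (⟨0, (Finsupp.single 0 ε, 0), 0⟩ : Gam 2) := by
  set g : Gam 2 := ⟨0, (Finsupp.single 0 ε, 0), 0⟩ with hg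
  have hgk : g.k = 0 := rfl
  have hgw : g.w = (Finsupp.single 0 ε, 0) := rfl
  have hgz : g.z = 0 := rfl
  set p : Gam 2 := ⟨0, (0, -Finsupp.single 0 ε), 0⟩ with hp
  set q : Gam 2 := ⟨0, 0, 1⟩ with hq
  apply hsi g [p⁻¹, q⁻¹] (by simp)
  apply hext
  have h1 : ([p⁻¹, q⁻¹].map fun h => h⁻¹ * g * h).prod = (p * g * p⁻¹) * (q * g * q⁻¹) := by
    simp
  rw [h1, inv_one, one_mul]
  right
  refine ⟨?_, ⟨?_, ?_⟩, ?_⟩
  · rw [mul_k, conj_k, conj_k, hgk, add_zero]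
  · rw [mul_w, conj_w0 _ _ hgk, conj_w0 _ _ hgk, conj_k, hgk, aW_zero, Prod.snd_add, aW2_snd,
      aW2_snd, hgw, map_zero, map_zero, add_zero]
  · rw [mul_w, conj_w0 _ _ hgk, conj_w0 _ _ hgk, conj_k, hgk, aW_zero, Prod.fst_add, aW2_fst,
      aW2_fst, map_add, Phi_sk, Phi_sk]
    simp only [hq, zpow_zero, zpow_one, one_mul, neg_mul, add_neg_cancel]
  · have e4 : p.w = (0, -Finsupp.single 0 ε) := rfl
    rw [mul_z, conj_z _ _ hgk, conj_z _ _ hgk, conj_w0 _ _ hgk, conj_w0 _ _ hgk, conj_k, hgk,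
      aW_zero, aZ_zero, hgz, map_zero, map_zero, zero_add, zero_add,
      LinearMap.zero_apply, aZ_zero, add_zero, aW_zero, Prod.snd_add, 
      Prod.smul_snd, om_apply, om_apply]
    simp only [om1, e4, hgw, map_zero,
      LinearMap.zero_apply, mul_zero, sub_zero, add_zero, smul_eq_mul, map_neg,
      Phi_single, Psi_single, zpow_zero, mul_one, zero_sub, mul_neg, neg_neg, hε]
    rw [aW2_snd]
    simp

theorem not_iss_two : ¬ IStarStar (Gam 2) := by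
  intro h
  obtain ⟨le, hPO, hsi, hext⟩ := h (fun x y => x⁻¹ * y ∈ P) P_cone.isPO
  have h1 := pos_elt le hsi hext 1 (by norm_num)
  have h2 := pos_elt le hsi hext (-1) (by norm_num)
  have h3 : (⟨0, (Finsupp.single 0 (-1), 0), 0⟩ : Gam 2) =
      (⟨0, (Finsupp.single 0 1, 0), 0⟩ : Gam 2)⁻¹ := by
    apply Gam.ext
    · rw [inv_z]; simp
    · rw [inv_w]
      simp
    · simp
  rw [h3] at h2
  have h4 := hPO.cone.anti _ h1 h2
  have h5 := congrArg (fun x : Gam 2 => x.w.1 0) h4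
  simp at h5

end Gam

end Pool.Agent.Lib.MP_c4b6f2_al
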